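import Pool.Agent.H63.TC.Tools

/-!
# Project TC: assembly of the zoom
-/

open Complex Metric Set Filter Topology

namespace Pool.Agent.H63.TC

theorem bzz (hlmd : LmdStmt) (hlef : LefStmt) (hbpl : BplStmt) (hcho : ChoStmt)
    (hbcc : BccStmt) (hmea : MeaStmt) (hrec : RecStmt) (hzom : ZomStmt) (hzm1 : Zm1Stmt) :
    BzzStmt := by
  intro V _ _ A W C ξ hC hξ hne
  -- a point where the first component does not vanish
  obtain ⟨p₀, hp₀⟩ : ∃ p, (ξ p).1 ≠ 0 := by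
    by_contra h
    push Not at h
    obtain ⟨p, hp⟩ := hne
    exact hp (hC.nondeg ξ hξ h p)
  obtain ⟨a₀, b₁, b₂, b₀, L, hb₀, hLc, hLW, hL0⟩ := hlef V A W p₀
  have hcone := hC.sub ξ hξ
  have hHol := hcho V A ξ hcone
  have hξc : Continuous ξ := hHol.continuous
  have hcayim : ∀ z ∈ ball (0 : ℂ) 1, 0 < (cay I z).im := fun z hz =>
    hzm1.2.2.2.2.2.1 I z (by simp) hz
  have hfc : ContinuousOn (fun q : ℝ × ℂ => discF W ξ L q.1 q.2) (Ioo b₁ b₂ ×ˢ ball 0 1) := by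
    have h1 : ContinuousOn (fun q : ℝ × ℂ => (q.1, cay I q.2)) (Ioo b₁ b₂ ×ˢ ball 0 1) := by
      refine continuousOn_fst.prodMk ?_
      exact (continuousOn_cay I).comp continuousOn_snd (fun q hq => hq.2)
    have h2 : ContinuousOn (fun q : ℝ × ℂ => L q.1 (cay I q.2)) (Ioo b₁ b₂ ×ˢ ball 0 1) :=
      hLc.comp h1 (fun q hq => ⟨hq.1, hcayim _ hq.2⟩)
    have h3 : ContinuousOn (fun q : ℝ × ℂ => W.hh ξ (L q.1 (cay I q.2)))
        (Ioo b₁ b₂ ×ˢ ball 0 1) := (W.continuous_hh hlmd hξc).comp_continuousOn h2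
    unfold discF
    exact (h3.mul (by fun_prop)).div_const _
  have hfb : ∀ b ∈ Ioo b₁ b₂, BPd (discF W ξ L b) := by
    intro b hb
    have h1 : ContinuousOn (L b) {τ : ℂ | 0 < τ.im} := by
      have h2 : ContinuousOn (fun τ : ℂ => (b, τ)) {τ : ℂ | 0 < τ.im} := by fun_prop
      exact hLc.comp h2 (fun τ hτ => ⟨hb, hτ⟩)
    have h3 := hbpl V A W ξ (L b) a₀ b I hcone (by simp) h1 (hLW b hb)
    have h4 : discF W ξ L b = fun z => W.hh ξ (L b (cay I z)) * (1 - z) ^ 2 / (2 * I * I.im) := by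
      funext z
      simp [discF]
    rw [h4]; exact h3
  have hfne : ∃ b ∈ Ioo b₁ b₂, ∃ z ∈ ball (0 : ℂ) 1, discF W ξ L b z ≠ 0 := by
    obtain ⟨z, hz, hzc⟩ := hzm1.2.2.2.2.2.2 I (W.W p₀).1 (by simp) (W.mem p₀).1
    refine ⟨b₀, hb₀, z, hz, ?_⟩
    unfold discF
    rw [hzc, hL0]
    have h1 : W.hh ξ p₀ ≠ 0 := fun h => hp₀ ((W.hh_eq_zero_iff hlmd).1 h)
    have h2 := one_sub_ne_zero hz
    have h3 : (2 * I : ℂ) ≠ 0 := by simp
    exact div_ne_zero (mul_ne_zero h1 (pow_ne_zero _ h2)) h3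
  obtain ⟨c₁, c₂, η, c, C', h1c, hc12, hc2, hη, hc, hbad⟩ :=
    hbcc b₁ b₂ (discF W ξ L) (hb₀.1.trans hb₀.2) hfc hfb hfne
  obtain ⟨δ, hδ, ρ, hρ, hmea'⟩ := hmea a₀ c₁ c₂ η hc12 hη
  obtain ⟨KY, hKY, hKYY, hrec'⟩ := hrec δ hδ
  obtain ⟨D, hD1, hD2⟩ := dense_seq
  obtain ⟨r, b, θ, hr, hrb, hlim⟩ := hbad (fun r => {x | ¬ Thick a₀ δ ρ r x}) hmea' D hD1
  have hthick : ∀ n, Thick a₀ δ ρ (r n) (b n, θ n) := by
    intro n
    have := (hrb n).2.2.2.1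
    by_contra h
    exact this h
  refine hzom V A W C ξ a₀ b₁ b₂ c₁ c₂ ρ c C' L KY D r b θ hC hξ hne h1c hc12 hc2 hρ hc hLc hLW
    hKY hKYY hD1 hD2 hr (fun n => ⟨(hrb n).1, (hrb n).2.1⟩) (fun n => (hthick n).1) ?_
    (fun n => ⟨(hrb n).2.2.2.2.1, (hrb n).2.2.2.2.2⟩) hlim
  intro n
  have hz : (r n : ℂ) * exp (θ n * I) ∈ ball (0 : ℂ) 1 := by
    rw [mem_ball_zero_iff, norm_mul, Complex.norm_exp_ofReal_mul_I, mul_one, Complex.norm_real,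
      Real.norm_eq_abs, abs_of_nonneg (by linarith [(hrb n).1.1])]
    exact (hrb n).1.2
  obtain ⟨a, b', c', d, m, k, hG, hact⟩ := hrec'
    (cay I (r n * exp (θ n * I)), a₀ * cay I (r n * exp (θ n * I)) + b n) (hcayim _ hz)
    (hthick n).2.1 (hthick n).2.2
  exact ⟨a, b', c', d, m, k, hG, hact⟩

end Pool.Agent.H63.TC
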