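import Pool.Agent.H63.TC.Defs

/-!
# Project TC: basic API
-/

open Complex Metric Set Filter Topology

namespace Pool.Agent.H63.TC

/-! ## The base `MM` -/

lemma dd_pos {m : ℂ × ℂ} (h : m ∈ MM) : 0 < dd m := by
  obtain ⟨h1, h2, h3, h4, h5⟩ := h
  unfold dd
  refine lt_min (lt_min (lt_min ?_ ?_) (lt_min ?_ ?_)) ?_
  · exact norm_pos_iff.2 h1
  · exact norm_pos_iff.2 (sub_ne_zero.2 h2)
  · exact norm_pos_iff.2 h3
  · exact norm_pos_iff.2 (sub_ne_zero.2 h4)
  · have := norm_pos_iff.2 (sub_ne_zero.2 h5)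
    linarith

lemma ball_dd_subset {m : ℂ × ℂ} : ball m (dd m) ⊆ MM := by
  intro m' hm'
  rw [mem_ball, dist_eq_norm] at hm'
  have hfst : ‖m'.1 - m.1‖ ≤ ‖m' - m‖ := norm_fst_le (m' - m)
  have hsnd : ‖m'.2 - m.2‖ ≤ ‖m' - m‖ := norm_snd_le (m' - m)
  unfold dd at hm'
  simp only [lt_min_iff] at hm'
  obtain ⟨⟨⟨a1, a2⟩, a3, a4⟩, a5⟩ := hm'
  refine ⟨?_, ?_, ?_, ?_, ?_⟩
  · intro h
    rw [h, zero_sub, norm_neg] at hfst
    linarith
  · intro h
    rw [h] at hfst
    rw [norm_sub_rev] at hfst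
    linarith
  · intro h
    rw [h, zero_sub, norm_neg] at hsnd
    linarith
  · intro h
    rw [h] at hsnd
    rw [norm_sub_rev] at hsnd
    linarith
  · intro h
    have : m.1 - m.2 = (m'.2 - m.2) - (m'.1 - m.1) := by rw [h]; ring
    have h2 : ‖m.1 - m.2‖ ≤ ‖m'.2 - m.2‖ + ‖m'.1 - m.1‖ := by
      rw [this]; exact norm_sub_le _ _
    linarith

lemma continuous_dd : Continuous dd := by
  unfold dd
  fun_prop

lemma isOpen_MM : IsOpen MM := by
  rw [Metric.isOpen_iff]
  intro m hm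
  exact ⟨dd m, dd_pos hm, ball_dd_subset⟩

lemma swap_mem_MM {m : ℂ × ℂ} (h : m ∈ MM) : m.swap ∈ MM := by
  obtain ⟨h1, h2, h3, h4, h5⟩ := h
  exact ⟨h3, h4, h1, h2, h5.symm⟩

lemma dd_swap (m : ℂ × ℂ) : dd m.swap = dd m := by
  unfold dd
  simp only [Prod.fst_swap, Prod.snd_swap]
  rw [min_comm (min ‖m.2‖ _), norm_sub_rev m.2 m.1]

lemma norm_swap (m : ℂ × ℂ) : ‖m.swap‖ = ‖m‖ := by
  simp only [Prod.norm_def, Prod.fst_swap, Prod.snd_swap]
  exact max_comm _ _

lemma swap_mem_ball {m m' : ℂ × ℂ} {r : ℝ} (h : m ∈ ball m' r) : m.swap ∈ ball m'.swap r := by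
  rw [mem_ball, dist_eq_norm] at h ⊢
  rw [← Prod.swap_sub, norm_swap]
  exact h

/-! ## Atlas -/

variable {V : Type} [TopologicalSpace V] (A : Atlas V)

namespace Atlas

lemma cont_E : Continuous A.E := by
  have := A.cov.continuous
  exact continuous_subtype_val.comp this

lemma dd_pos (p : V) : 0 < dd (A.E p) := TC.dd_pos (A.mem p)

lemma self_mem (p : V) : A.E p ∈ ball (A.E p) (dd (A.E p)) := mem_ball_self (A.dd_pos p)

lemma t2 (A : Atlas V) : T2Space V := by
  have h1 := A.cov.isSeparatedMap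
  constructor
  intro p q hpq
  by_cases h : A.E p = A.E q
  · exact h1 p q (Subtype.ext h) hpq
  · obtain ⟨u, v, hu, hv, hpu, hqv, huv⟩ := t2_separation h
    exact ⟨A.E ⁻¹' u, A.E ⁻¹' v, hu.preimage A.cont_E, hv.preimage A.cont_E, hpu, hqv,
      huv.preimage _⟩

lemma isLocalHomeomorph_E : IsLocalHomeomorph A.E :=
  (isOpen_MM.isOpenEmbedding_subtypeVal.isLocalHomeomorph).comp A.cov.isLocalHomeomorph

lemma isOpenMap_E : IsOpenMap A.E := A.isLocalHomeomorph_E.isOpenMap

/-- uniqueness of lifts through `E` on a preconnected set -/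
lemma eqOn_of_E {T : Type*} [TopologicalSpace T] {S : Set T} (hS : IsPreconnected S)
    {f g : T → V} (hf : ContinuousOn f S) (hg : ContinuousOn g S)
    (h : ∀ t ∈ S, A.E (f t) = A.E (g t)) {t₀ : T} (ht₀ : t₀ ∈ S) (h₀ : f t₀ = g t₀) :
    EqOn f g S :=
  A.cov.eqOn_of_comp_eqOn hS hf hg (fun t ht => Subtype.ext (h t ht)) ht₀ h₀

lemma cont_sec_right (p : V) : ContinuousOn (A.sec p) (ball (A.E p) (TC.dd (A.E p))) := by
  have h := A.cont_sec
  have h2 : ContinuousOn (fun m : ℂ × ℂ => (p, m)) (ball (A.E p) (TC.dd (A.E p))) := by fun_prop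
  exact h.comp h2 (fun m hm => hm)

lemma continuousAt_sec (p : V) {m : ℂ × ℂ} (hm : m ∈ ball (A.E p) (TC.dd (A.E p))) :
    ContinuousAt (A.sec p) m :=
  (A.cont_sec_right p).continuousAt (isOpen_ball.mem_nhds hm)

/-- compatibility of the sections -/
lemma sec_eq {p q : V} {m : ℂ × ℂ} (hmp : m ∈ ball (A.E p) (TC.dd (A.E p)))
    (hmq : m ∈ ball (A.E q) (TC.dd (A.E q))) (h : A.sec p m = A.sec q m) {m' : ℂ × ℂ}
    (hmp' : m' ∈ ball (A.E p) (TC.dd (A.E p))) (hmq' : m' ∈ ball (A.E q) (TC.dd (A.E q))) :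
    A.sec p m' = A.sec q m' := by
  have hconv : Convex ℝ (ball (A.E p) (TC.dd (A.E p)) ∩ ball (A.E q) (TC.dd (A.E q))) :=
    (convex_ball _ _).inter (convex_ball _ _)
  have := A.eqOn_of_E (f := A.sec p) (g := A.sec q) hconv.isPreconnected
    ((A.cont_sec_right p).mono inter_subset_left) ((A.cont_sec_right q).mono inter_subset_right)
    (fun t ht => by rw [A.E_sec p t ht.1, A.E_sec q t ht.2]) ⟨hmp, hmq⟩ h
  exact this ⟨hmp', hmq'⟩

/-- compatibility: if `q = sec p m` then `sec q = sec p` on the common domain -/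
lemma sec_sec {p : V} {m : ℂ × ℂ} (hm : m ∈ ball (A.E p) (TC.dd (A.E p))) {m' : ℂ × ℂ}
    (h1 : m' ∈ ball (A.E p) (TC.dd (A.E p))) (h2 : m' ∈ ball m (TC.dd m)) :
    A.sec (A.sec p m) m' = A.sec p m' := by
  have hE : A.E (A.sec p m) = m := A.E_sec p m hm
  refine A.sec_eq (m := m) ?_ hm ?_ ?_ h1
  · rw [hE]; exact mem_ball_self (TC.dd_pos (ball_dd_subset hm))
  · have := A.sec_self (A.sec p m)
    rw [hE] at this
    exact this
  · rw [hE]; exact h2

/-- eventual version of `sec_sec` -/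
lemma eventually_sec_sec {p : V} {m : ℂ × ℂ} (hm : m ∈ ball (A.E p) (TC.dd (A.E p))) :
    ∀ᶠ m' in 𝓝 m, A.sec (A.sec p m) m' = A.sec p m' := by
  have h1 : ∀ᶠ m' in 𝓝 m, m' ∈ ball (A.E p) (TC.dd (A.E p)) := isOpen_ball.mem_nhds hm
  have h2 : ∀ᶠ m' in 𝓝 m, m' ∈ ball m (TC.dd m) :=
    ball_mem_nhds _ (TC.dd_pos (ball_dd_subset hm))
  filter_upwards [h1, h2] with m' h1 h2
  exact A.sec_sec hm h1 h2

/-- the sheet of `p` -/
lemma sec_E_of_close {p q : V} (h : A.sec p (A.E q) = q)
    (hq : A.E q ∈ ball (A.E p) (TC.dd (A.E p))) :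
    ∀ᶠ q' in 𝓝 q, A.sec p (A.E q') = q' := by
  have h1 : ∀ᶠ q' in 𝓝 q, A.sec q (A.E q') = q' := A.near q
  have h2 := A.eventually_sec_sec hq
  rw [h] at h2
  have h3 : ∀ᶠ q' in 𝓝 q, A.sec q (A.E q') = A.sec p (A.E q') :=
    A.cont_E.continuousAt.eventually h2
  filter_upwards [h1, h3] with q' a b
  rw [← b, a]

variable {F : Type} [NormedAddCommGroup F] [NormedSpace ℂ F]

lemma Hol.differentiableAt_sec {A : Atlas V} {f : V → F} (hf : A.Hol f) (p : V) {m : ℂ × ℂ}
    (hm : m ∈ ball (A.E p) (TC.dd (A.E p))) :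
    DifferentiableAt ℂ (fun m' => f (A.sec p m')) m := by
  have h1 := hf (A.sec p m)
  rw [A.E_sec p m hm] at h1
  refine h1.congr_of_eventuallyEq ?_
  filter_upwards [A.eventually_sec_sec hm] with m' h
  rw [h]

lemma Hol.differentiableOn_sec {A : Atlas V} {f : V → F} (hf : A.Hol f) (p : V) :
    DifferentiableOn ℂ (fun m' => f (A.sec p m')) (ball (A.E p) (TC.dd (A.E p))) :=
  fun _ hm => (hf.differentiableAt_sec p hm).differentiableWithinAt

lemma Hol.continuous {A : Atlas V} {f : V → F} (hf : A.Hol f) : Continuous f := by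
  rw [continuous_iff_continuousAt]
  intro p
  have h1 : ContinuousAt (fun m' => f (A.sec p m')) (A.E p) := (hf p).continuousAt
  have h2 : ContinuousAt (fun q => f (A.sec p (A.E q))) p :=
    ContinuousAt.comp (f := A.E) (g := fun m' => f (A.sec p m')) h1 A.cont_E.continuousAt
  refine h2.congr ?_
  filter_upwards [A.near p] with q hq
  rw [hq]

/-- **Composition**: a holomorphic function on `V` composed with a holomorphic map to `V`. -/
lemma Hol.comp_hasFDerivAt {A : Atlas V} {f : V → F} (hf : A.Hol f)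
    {N : Type} [NormedAddCommGroup N] [NormedSpace ℂ N] {j : N → V} {z₀ : N}
    (hj : ContinuousAt j z₀) {j' : N →L[ℂ] ℂ × ℂ}
    (hEj : HasFDerivAt (fun z => A.E (j z)) j' z₀) :
    HasFDerivAt (fun z => f (j z))
      ((fderiv ℂ (fun m => f (A.sec (j z₀) m)) (A.E (j z₀))).comp j') z₀ := by
  have h1 := (hf (j z₀)).hasFDerivAt
  have h2 := HasFDerivAt.comp z₀ (f := fun z => A.E (j z)) (g := fun m => f (A.sec (j z₀) m))
    h1 hEj
  refine h2.congr_of_eventuallyEq ?_
  have h3 : ∀ᶠ z in 𝓝 z₀, A.sec (j z₀) (A.E (j z)) = j z := hj.eventually (A.near (j z₀))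
  filter_upwards [h3] with z hz
  simp [Function.comp, hz]

lemma Hol.comp_differentiableAt {A : Atlas V} {f : V → F} (hf : A.Hol f)
    {N : Type} [NormedAddCommGroup N] [NormedSpace ℂ N] {j : N → V} {z₀ : N}
    (hj : ContinuousAt j z₀) (hEj : DifferentiableAt ℂ (fun z => A.E (j z)) z₀) :
    DifferentiableAt ℂ (fun z => f (j z)) z₀ :=
  (hf.comp_hasFDerivAt hj hEj.hasFDerivAt).differentiableAt

lemma hol_E : A.Hol A.E := by
  intro p
  have : (fun m => A.E (A.sec p m)) =ᶠ[𝓝 (A.E p)] id := by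
    filter_upwards [isOpen_ball.mem_nhds (A.self_mem p)] with m hm
    rw [A.E_sec p m hm]; rfl
  exact differentiableAt_id.congr_of_eventuallyEq this

/-- composition with a holomorphic self-map -/
lemma Hol.comp_self {A : Atlas V} {f : V → F} (hf : A.Hol f) {G : V → V} (hG : A.HolSelf G) :
    A.Hol (fun p => f (G p)) := by
  intro p
  have h1 : ContinuousAt (fun m => G (A.sec p m)) (A.E p) := by
    have := A.continuousAt_sec p (A.self_mem p)
    exact hG.1.continuousAt.comp this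
  exact hf.comp_differentiableAt h1 (hG.2 p)

lemma holSelf_id : A.HolSelf id := ⟨continuous_id, A.hol_E⟩

lemma HolSelf.comp {A : Atlas V} {G H : V → V} (hG : A.HolSelf G) (hH : A.HolSelf H) :
    A.HolSelf (G ∘ H) := ⟨hG.1.comp hH.1, hG.2.comp_self hH⟩

lemma HolSelf.iterate {A : Atlas V} {G : V → V} (hG : A.HolSelf G) (n : ℕ) :
    A.HolSelf (G^[n]) := by
  induction n with
  | zero => exact A.holSelf_id
  | succ n ih => rw [Function.iterate_succ]; exact ih.comp hG

lemma holSelf_deck {g : V → V} (hg : Continuous g) (h : ∀ p, A.E (g p) = A.E p) :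
    A.HolSelf g := by
  refine ⟨hg, ?_⟩
  have : (fun p => A.E (g p)) = A.E := funext h
  rw [this]
  exact A.hol_E

/-- a continuous map `f` on `V` with values in an open set where a local biholomorphism
`Ψ` is available: if `Ψ ∘ f` is holomorphic then `f` is. -/
lemma hol_of_lift {F' : Type} [NormedAddCommGroup F'] [NormedSpace ℂ F'] [CompleteSpace F]
    {f : V → F} (hf : Continuous f) {Ψ : F → F'} (hΨf : A.Hol (fun p => Ψ (f p)))
    (hΨ : ∀ p, ∃ e : F ≃L[ℂ] F', HasStrictFDerivAt Ψ (e : F →L[ℂ] F') (f p)) :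
    A.Hol f := by
  intro p
  obtain ⟨e, he⟩ := hΨ p
  have h1 : ContinuousAt (fun m => f (A.sec p m)) (A.E p) := by
    have := A.continuousAt_sec p (A.self_mem p)
    exact hf.continuousAt.comp this
  have h2 := hΨf p
  -- the local inverse of Ψ at f p
  have hp : A.sec p (A.E p) = p := A.sec_self p
  have h3 : HasStrictFDerivAt (he.localInverse Ψ e (f p)) (e.symm : F' →L[ℂ] F) (Ψ (f p)) :=
    he.to_localInverse
  have h4 : ∀ᶠ w in 𝓝 (f p), he.localInverse Ψ e (f p) (Ψ w) = w :=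
    he.eventually_left_inverse
  have h1' : Tendsto (fun m => f (A.sec p m)) (𝓝 (A.E p)) (𝓝 (f p)) := by
    have := h1.tendsto
    simpa [hp] using this
  have h5 : ∀ᶠ m in 𝓝 (A.E p), he.localInverse Ψ e (f p) (Ψ (f (A.sec p m))) = f (A.sec p m) :=
    h1'.eventually h4
  have h6 : DifferentiableAt ℂ (fun m => he.localInverse Ψ e (f p) (Ψ (f (A.sec p m)))) (A.E p) := by
    have h7 : DifferentiableAt ℂ (he.localInverse Ψ e (f p)) (Ψ (f (A.sec p (A.E p)))) := by
      rw [hp]; exact h3.hasFDerivAt.differentiableAt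
    exact DifferentiableAt.comp (g := he.localInverse Ψ e (f p))
      (f := fun m => Ψ (f (A.sec p m))) (A.E p) h7 h2
  refine h6.congr_of_eventuallyEq ?_
  filter_upwards [h5] with m hm
  rw [hm]

/-! ### Local topology of `V` -/

/-- the closed sheet ball -/
def sb (p : V) (r : ℝ) : Set V := A.sec p '' (closedBall (A.E p) r)

lemma isCompact_sb (p : V) {r : ℝ} (hr : r < TC.dd (A.E p)) : IsCompact (A.sb p r) := by
  refine (isCompact_closedBall _ _).image_of_continuousOn ?_
  exact (A.cont_sec_right p).mono (closedBall_subset_ball hr)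

lemma sb_mem_nhds (p : V) {r : ℝ} (hr0 : 0 < r) : A.sb p r ∈ 𝓝 p := by
  have h1 : ∀ᶠ q in 𝓝 p, A.E q ∈ closedBall (A.E p) r :=
    A.cont_E.continuousAt.eventually (closedBall_mem_nhds _ hr0)
  filter_upwards [h1, A.near p] with q h1 h2
  exact ⟨A.E q, h1, h2⟩

lemma locallyCompact (A : Atlas V) : LocallyCompactSpace V := by
  have := A.t2
  have : WeaklyLocallyCompactSpace V := by
    constructor
    intro p
    have h := A.dd_pos p
    exact ⟨A.sb p (TC.dd (A.E p) / 2), A.isCompact_sb p (by linarith), A.sb_mem_nhds p (by linarith)⟩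
  infer_instance

lemma locallyPathConnected (A : Atlas V) : LocallyPathConnectedSpace V := by
  refine LocallyPathConnectedSpace.of_bases (ι := ℝ) (p := fun p r => 0 < r ∧ r < TC.dd (A.E p))
    (s := fun p r => A.sb p r) ?_ ?_
  · intro p
    refine ⟨fun t => ⟨fun ht => ?_, ?_⟩⟩
    · have h1 : ContinuousAt (A.sec p) (A.E p) := A.continuousAt_sec p (A.self_mem p)
      have h2 : A.sec p ⁻¹' t ∈ 𝓝 (A.E p) := by
        apply h1; rw [A.sec_self]; exact ht
      obtain ⟨r, hr, hrt⟩ := Metric.nhds_basis_closedBall.mem_iff.1 h2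
      have h := A.dd_pos p
      refine ⟨min r (TC.dd (A.E p) / 2), ⟨lt_min hr (by linarith), ?_⟩, ?_⟩
      · exact (min_le_right _ _).trans_lt (by linarith)
      · rintro _ ⟨m, hm, rfl⟩
        exact hrt (closedBall_subset_closedBall (min_le_left _ _) hm)
    · rintro ⟨r, ⟨hr, -⟩, hrt⟩
      exact mem_of_superset (A.sb_mem_nhds p hr) hrt
  · intro p r hr
    have h1 : IsPathConnected (closedBall (A.E p) r) :=
      (convex_closedBall _ _).isPathConnected ⟨A.E p, mem_closedBall_self hr.1.le⟩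
    exact h1.image' ((A.cont_sec_right p).mono (closedBall_subset_ball hr.2))

/-! ### The swapped atlas -/

/-- the atlas with the two coordinates exchanged -/
def swap (A : Atlas V) : Atlas V where
  E p := (A.E p).swap
  mem p := swap_mem_MM (A.mem p)
  cov := by
    let φ : MM ≃ₜ MM :=
      { toFun := fun m => ⟨(m : ℂ × ℂ).swap, swap_mem_MM m.2⟩
        invFun := fun m => ⟨(m : ℂ × ℂ).swap, swap_mem_MM m.2⟩
        left_inv := fun m => by simp
        right_inv := fun m => by simp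
        continuous_toFun := by
          refine Continuous.subtype_mk ?_ _
          exact continuous_swap.comp continuous_subtype_val
        continuous_invFun := by
          refine Continuous.subtype_mk ?_ _
          exact continuous_swap.comp continuous_subtype_val }
    exact A.cov.homeomorph_comp φ
  sec p m := A.sec p m.swap
  E_sec p m hm := by
    have h : m.swap ∈ ball (A.E p) (TC.dd (A.E p)) := by
      have := swap_mem_ball hm
      rwa [Prod.swap_swap, dd_swap] at this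
    rw [A.E_sec p _ h, Prod.swap_swap]
  sec_self p := by rw [Prod.swap_swap, A.sec_self]
  cont_sec := by
    have h := A.cont_sec
    have h2 : ContinuousOn (fun x : V × (ℂ × ℂ) => (x.1, x.2.swap))
        {x | x.2 ∈ ball (A.E x.1).swap (TC.dd (A.E x.1).swap)} := by
      have : Continuous (fun x : V × (ℂ × ℂ) => (x.1, x.2.swap)) := by fun_prop
      exact this.continuousOn
    refine h.comp h2 ?_
    intro x hx
    have := swap_mem_ball hx
    rwa [Prod.swap_swap, dd_swap] at this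
  near p := by
    filter_upwards [A.near p] with q hq
    rw [Prod.swap_swap, hq]

@[simp] lemma swap_E (p : V) : A.swap.E p = (A.E p).swap := rfl
@[simp] lemma swap_sec (p : V) (m : ℂ × ℂ) : A.swap.sec p m = A.sec p m.swap := rfl

end Atlas

end Pool.Agent.H63.TC
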