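import Mathlib

/-!
# Project TC (MP_5cc1e3_an): definitions

`MM` is the space of pairs `(x,y)` with `0,1,x,y` distinct, `V` its universal cover (the
Teichmueller space of the five times punctured sphere).
-/

open Complex Metric Set Filter Topology

namespace Pool.Agent.H63.TC

noncomputable section

/-! ## The base and its coverings -/

/-- the pairs `(x, y)` such that `0, 1, x, y` are distinct -/
def MM : Set (ℂ × ℂ) := {m | m.1 ≠ 0 ∧ m.1 ≠ 1 ∧ m.2 ≠ 0 ∧ m.2 ≠ 1 ∧ m.1 ≠ m.2}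

/-- a radius such that the (sup norm) ball around `m` lies in `MM` -/
def dd (m : ℂ × ℂ) : ℝ :=
  min (min (min ‖m.1‖ ‖m.1 - 1‖) (min ‖m.2‖ ‖m.2 - 1‖)) (‖m.1 - m.2‖ / 2)

/-- A covering `E : V → MM` together with its local sections `sec p` on the balls
`ball (E p) (dd (E p))`, normalised by `sec p (E p) = p`. -/
structure Atlas (V : Type) [TopologicalSpace V] where
  E : V → ℂ × ℂ
  mem : ∀ p, E p ∈ MM
  cov : IsCoveringMap (fun p => (⟨E p, mem p⟩ : MM))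
  sec : V → ℂ × ℂ → V
  E_sec : ∀ p m, m ∈ ball (E p) (dd (E p)) → E (sec p m) = m
  sec_self : ∀ p, sec p (E p) = p
  cont_sec : ContinuousOn (fun x : V × (ℂ × ℂ) => sec x.1 x.2)
    {x | x.2 ∈ ball (E x.1) (dd (E x.1))}
  near : ∀ p, ∀ᶠ q in 𝓝 p, sec p (E q) = q

variable {V : Type} [TopologicalSpace V]

/-- holomorphic functions (or vector valued functions) on `V` -/
def Atlas.Hol (A : Atlas V) {F : Type} [NormedAddCommGroup F] [NormedSpace ℂ F] (f : V → F) :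
    Prop :=
  ∀ p, DifferentiableAt ℂ (fun m => f (A.sec p m)) (A.E p)

/-- holomorphic self-maps of `V` -/
def Atlas.HolSelf (A : Atlas V) (F : V → V) : Prop :=
  Continuous F ∧ A.Hol (fun p => A.E (F p))

/-- `F` is `c`-close to the identity on `K`: `F p` lies on the sheet of `p` at distance `≤ c` -/
def Atlas.Close (A : Atlas V) (K : Set V) (c : ℝ) (F : V → V) : Prop :=
  ∀ p ∈ K, ‖A.E (F p) - A.E p‖ ≤ c ∧ ‖A.E (F p) - A.E p‖ < dd (A.E p) ∧
    A.sec p (A.E (F p)) = F p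

/-- `F i → id` locally uniformly along `l` -/
def Atlas.ToId (A : Atlas V) {ι : Type} (l : Filter ι) (F : ι → V → V) : Prop :=
  ∀ K, IsCompact K → ∀ c > 0, ∀ᶠ i in l, A.Close K c (F i)

/-- The cone of all vector fields `ξ = lim (F_n - id) / s_n`, `F_n` holomorphic self-maps
converging to the identity; `ξ` is given by its components in the coordinates `E = (x, y)`. -/
def Atlas.Cone (A : Atlas V) (ξ : V → ℂ × ℂ) : Prop :=
  ∀ K, IsCompact K → ∀ ε > 0, ∃ F, A.HolSelf F ∧ ∃ s : ℝ, 0 < s ∧ s < ε ∧ A.Close K ε F ∧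
    ∀ p ∈ K, ‖A.E (F p) - A.E p - (s : ℂ) • ξ p‖ ≤ ε * s

/-! ## Elliptic functions -/

/-- the lattice `ℤ τ + ℤ` -/
def Lat (τ z : ℂ) : Prop := ∃ m n : ℤ, z = m * τ + n

/-- the universal punctured elliptic curve -/
def YY : Set (ℂ × ℂ) := {q | 0 < q.1.im ∧ ¬ Lat q.1 q.2}

/-- the Weierstrass function up to an additive constant -/
def P (τ z : ℂ) : ℂ := ∑' n : ℤ, (Real.pi : ℂ) ^ 2 / (Complex.sin (Real.pi * (z + n * τ))) ^ 2

def e1 (τ : ℂ) : ℂ := P τ (τ / 2)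
def e2 (τ : ℂ) : ℂ := P τ ((1 + τ) / 2)
def e3 (τ : ℂ) : ℂ := P τ (1 / 2)

/-- the modular function (with `lam → ∞` at `i ∞`) -/
def lam (τ : ℂ) : ℂ := (e3 τ - e1 τ) / (e2 τ - e1 τ)

def yy (τ u : ℂ) : ℂ := (P τ (u / 2) - e1 τ) / (e2 τ - e1 τ)

def Phi (q : ℂ × ℂ) : ℂ × ℂ := (lam q.1, yy q.1 q.2)

/-- derivative of `yy` in `τ` -/
def yt (q : ℂ × ℂ) : ℂ := deriv (fun τ => yy τ q.2) q.1

/-- derivative of `yy` in `u` -/
def yu (q : ℂ × ℂ) : ℂ := deriv (yy q.1) q.2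

/-- An elliptic structure on `V`: a continuous lift of `E` through `Phi : YY → MM`. -/
structure Ell (A : Atlas V) where
  W : V → ℂ × ℂ
  cont : Continuous W
  mem : ∀ p, W p ∈ YY
  Phi_W : ∀ p, Phi (W p) = A.E p

/-- `τ`-component of the vector field `ξ` -/
def Ell.hh {A : Atlas V} (W : Ell A) (ξ : V → ℂ × ℂ) (p : V) : ℂ :=
  (ξ p).1 / deriv lam (W.W p).1

/-- `u`-component of the vector field `ξ` -/
def Ell.kk {A : Atlas V} (W : Ell A) (ξ : V → ℂ × ℂ) (p : V) : ℂ :=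
  ((ξ p).2 - yt (W.W p) * W.hh ξ p) / yu (W.W p)

/-- the action of an element of `Γ(2) ⋉ (2ℤ)²` -/
def act (a b c d m n : ℤ) (q : ℂ × ℂ) : ℂ × ℂ :=
  ((a * q.1 + b) / (c * q.1 + d),
    q.2 / (c * q.1 + d) + 2 * m * ((a * q.1 + b) / (c * q.1 + d)) + 2 * n)

/-- `(a b; c d) ∈ Γ(2)` -/
def G2 (a b c d : ℤ) : Prop := a * d - b * c = 1 ∧ Odd a ∧ Even b ∧ Even c ∧ Odd d

/-- the conformal map from the unit disc to the half plane with `0 ↦ τ₀` -/
def cay (τ₀ z : ℂ) : ℂ := (τ₀ - (starRingEnd ℂ) τ₀ * z) / (1 - z)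

/-- the infinitesimal generators of the unit disc (Berkson-Porta) -/
def BPd (f : ℂ → ℂ) : Prop :=
  DifferentiableOn ℂ f (ball 0 1) ∧ ∀ z ∈ ball (0 : ℂ) 1,
    0 ≤ ((f 0 - (starRingEnd ℂ) (f 0) * z ^ 2 - f z) * (starRingEnd ℂ) z).re

/-- push forward of the vector field `ξ` under a holomorphic homeomorphism `T` -/
def Atlas.push (A : Atlas V) (T : V ≃ₜ V) (ξ : V → ℂ × ℂ) (q : V) : ℂ × ℂ :=
  fderiv ℂ (fun m => A.E (T (A.sec (T.symm q) m))) (A.E (T.symm q)) (ξ (T.symm q))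

/-- The closed deck invariant nondegenerate cones of the main argument. -/
structure GoodC (A : Atlas V) (C : (V → ℂ × ℂ) → Prop) : Prop where
  sub : ∀ ξ, C ξ → A.Cone ξ
  smul : ∀ ξ, C ξ → ∀ r : ℝ, 0 < r → C (fun p => (r : ℂ) • ξ p)
  deck : ∀ ξ, C ξ → ∀ g : V ≃ₜ V, (∀ p, A.E (g p) = A.E p) → C (fun p => ξ (g p))
  closed : ∀ (l : Ultrafilter ℕ) (f : ℕ → V → ℂ × ℂ) (ξ : V → ℂ × ℂ), (∀ n, C (f n)) →
    TendstoLocallyUniformly f ξ (l : Filter ℕ) → C ξ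
  nondeg : ∀ ξ, C ξ → (∀ p, (ξ p).1 = 0) → ∀ p, ξ p = 0

end

end Pool.Agent.H63.TC
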