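import Pool.Agent.H63.TC.Stmts

/-!
# Project TC: the final statement
-/

open Filter Topology

namespace Pool.Agent.H63.TC

noncomputable section

/-- The monic polynomial `λ^n + z_1 λ^(n-1) + ... + z_n`. -/
def monicPoly {n : ℕ} (z : Fin n → ℂ) : Polynomial ℂ :=
  Polynomial.X ^ n + ∑ i : Fin n, Polynomial.C (z i) * Polynomial.X ^ (n - 1 - (i : ℕ))

/-- `G_n`: the coefficient vectors of the monic polynomials with nonzero discriminant. -/
def GG (n : ℕ) : Set (Fin n → ℂ) := {z | (monicPoly z).discr ≠ 0}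

/-- `F : X → X` is holomorphic for the complex structure pulled back along the covering map
`p : X → G_n`: it is continuous and `p ∘ F ∘ s` is complex differentiable at `p x` for every
point `x` and every local section `s` of `p` at `p x` with `s (p x) = x`. -/
def HolAlong {n : ℕ} {X : Type} [TopologicalSpace X] (p : X → GG n) (F : X → X) : Prop :=
  Continuous F ∧ ∀ (x : X) (s : (Fin n → ℂ) → X), s (p x) = x → ContinuousAt s (p x) →
    (∀ᶠ z in 𝓝 (p x : Fin n → ℂ), (p (s z) : Fin n → ℂ) = z) →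
    DifferentiableAt ℂ (fun z => (p (F (s z)) : Fin n → ℂ)) (p x)

/-- The covering space `X` of `G_n` is holomorphically contractible. -/
def HolContractible {n : ℕ} {X : Type} [TopologicalSpace X] (p : X → GG n) : Prop :=
  ∃ (x₀ : X) (F : X × unitInterval → X), Continuous F ∧ (∀ x, F (x, 0) = x) ∧
    (∀ x, F (x, 1) = x₀) ∧ ∀ t, HolAlong p (fun x => F (x, t))

/-- DSC: nonzero discriminant means distinct roots. -/
def DscStmt : Prop :=
  ∀ z : Fin 4 → ℂ, z ∈ GG 4 ↔ ∃ r : Fin 4 → ℂ, Function.Injective r ∧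
    monicPoly z = ∏ i, (Polynomial.X - Polynomial.C (r i))

/-- ROT: continuous labelling of the roots on a simply connected covering. -/
def RotStmt : Prop :=
  ∀ (X : Type) [TopologicalSpace X] [SimplyConnectedSpace X] (p : X → GG 4), IsCoveringMap p →
    ∃ r : Fin 4 → X → ℂ, (∀ i, Continuous (r i)) ∧ (∀ x, Function.Injective (fun i => r i x)) ∧
      ∀ x, monicPoly (p x : Fin 4 → ℂ) = ∏ i, (Polynomial.X - Polynomial.C (r i x))

/-- RTH: simple roots depend holomorphically on the coefficients. -/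
def RthStmt : Prop :=
  ∀ (z₀ : Fin 4 → ℂ) (ρ : (Fin 4 → ℂ) → ℂ), z₀ ∈ GG 4 → ContinuousAt ρ z₀ →
    (∀ᶠ z in 𝓝 z₀, (monicPoly z).eval (ρ z) = 0) → DifferentiableAt ℂ ρ z₀

/-- SCV: retracts of simply connected spaces are simply connected. -/
def ScvStmt : Prop :=
  ∀ (X V : Type) [TopologicalSpace X] [TopologicalSpace V] [SimplyConnectedSpace X] (j : V → X)
    (π : X → V), Continuous j → Continuous π → (∀ v, π (j v) = v) → SimplyConnectedSpace V

/-- FLO: the affine flow on a simply connected covering of `G_4`. -/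
def FloStmt : Prop :=
  ∀ (X : Type) [TopologicalSpace X] [SimplyConnectedSpace X] (p : X → GG 4)
    (r : Fin 4 → X → ℂ), IsCoveringMap p → (∀ i, Continuous (r i)) →
    (∀ x, Function.Injective (fun i => r i x)) →
    (∀ x, monicPoly (p x : Fin 4 → ℂ) = ∏ i, (Polynomial.X - Polynomial.C (r i x))) →
    ∃ (θ : X → ℂ) (H : X × unitInterval → X), Continuous θ ∧ Continuous H ∧
      (∀ x, Complex.exp (θ x) = r 1 x - r 0 x) ∧ (∀ x, H (x, 0) = x) ∧
      (∀ x (t : unitInterval), θ (H (x, t)) = (1 - (t : ℝ) : ℂ) * θ x ∧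
        ∀ i, r i (H (x, t)) = (1 - (t : ℝ) : ℂ) * r 0 x +
          Complex.exp ((1 - (t : ℝ) : ℂ) * θ x) * ((r i x - r 0 x) / (r 1 x - r 0 x))) ∧
      (∀ x, r 0 x = 0 → θ x = 0 → ∀ t, H (x, t) = x)

/-- SLI: the universal covering of `MM` is a holomorphic retract of that of `G_4`. -/
def SliStmt : Prop :=
  ∀ (X : Type) [TopologicalSpace X] [SimplyConnectedSpace X] (p : X → GG 4), IsCoveringMap p →
    ∃ (V : Type) (_ : TopologicalSpace V) (_ : SimplyConnectedSpace V) (A : Atlas V) (j : V → X)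
      (π : X → V), Continuous j ∧ Continuous π ∧ (∀ v, π (j v) = v) ∧
        ∀ F : X → X, HolAlong p F → A.HolSelf (fun v => π (F (j v)))

end

end Pool.Agent.H63.TC
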