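import Pool.Agent.H63.TC.Tools

/-!
# Project TC: lifts and elliptic structures (UNQ, WEX, WNE, LIW, WHL)
-/

open Complex Metric Set Filter Topology

namespace Pool.Agent.H63.TC

theorem unq (hphc : PhcStmt) : UnqStmt := by
  intro T _ S f g t₀ hS hf hg hfY hgY hfg ht₀ h₀ t ht
  obtain ⟨h, hcov, -⟩ := hphc
  have : PreconnectedSpace S := isPreconnected_iff_preconnectedSpace.1 hS
  let f' : S → YY := fun s => ⟨f s, hfY s s.2⟩
  let g' : S → YY := fun s => ⟨g s, hgY s s.2⟩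
  have hf' : Continuous f' := by
    refine Continuous.subtype_mk ?_ _
    exact continuousOn_iff_continuous_restrict.1 hf
  have hg' : Continuous g' := by
    refine Continuous.subtype_mk ?_ _
    exact continuousOn_iff_continuous_restrict.1 hg
  have key : f' = g' := by
    refine hcov.eq_of_comp_eq hf' hg' ?_ ⟨t₀, ht₀⟩ (Subtype.ext h₀)
    funext s
    exact Subtype.ext (hfg s s.2)
  have := congrFun key ⟨t, ht⟩
  exact congrArg Subtype.val this

theorem wex (hphc : PhcStmt) : WexStmt := by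
  intro V _ _ A p₀ q₀ hq₀ hE
  obtain ⟨h, hcov, -⟩ := hphc
  have hlp : LocallyPathConnectedSpace V := A.locallyPathConnected
  let E' : C(V, MM) := ⟨fun p => ⟨A.E p, A.mem p⟩, A.cov.continuous⟩
  obtain ⟨G, ⟨hG0, hG⟩, -⟩ := hcov.existsUnique_continuousMap_lifts E' p₀ ⟨q₀, hq₀⟩
    (Subtype.ext hE)
  refine ⟨⟨fun p => (G p : ℂ × ℂ), continuous_subtype_val.comp G.continuous, fun p => (G p).2,
    fun p => ?_⟩, ?_⟩
  · have := congrFun hG p
    exact congrArg Subtype.val this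
  · change (G p₀ : ℂ × ℂ) = q₀
    rw [hG0]

theorem wne (hphc : PhcStmt) : WneStmt := by
  intro V _ _ A
  obtain ⟨h, hcov, hsurj⟩ := id hphc
  obtain ⟨p₀⟩ : Nonempty V := inferInstance
  obtain ⟨q, hq⟩ := hsurj ⟨A.E p₀, A.mem p₀⟩
  obtain ⟨W, -⟩ := wex hphc V A p₀ q q.2 (congrArg Subtype.val hq)
  exact ⟨W⟩

theorem liw (hlife : LifeStmt) (hunq : UnqStmt) (hphd : PhdStmt) : LiwStmt := by
  intro V _ _ A W N _ _ S g s₀ p₀ hS hs₀ hg hgY hp₀
  have hPc : ContinuousOn Phi YY := fun q hq =>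
    ((hphd q hq).2.2.2.2.2.choose_spec.1).hasFDerivAt.continuousAt.continuousWithinAt
  obtain ⟨G, hGc, hGE, hG0⟩ := hlife V A N S (fun s => Phi (g s)) s₀ p₀ hS hs₀
    (hPc.comp hg hgY) (fun s hs => (hphd _ (hgY s hs)).1) (by rw [← W.Phi_W, hp₀])
  refine ⟨G, hGc, ?_, hG0⟩
  refine hunq N S (fun s => W.W (G s)) g s₀ hS.isPreconnected
    (W.cont.comp_continuousOn hGc) hg (fun s _ => W.mem _) hgY ?_ hs₀ ?_
  · intro s hs
    rw [W.Phi_W, hGE s hs]
  · change W.W (G s₀) = g s₀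
    rw [hG0, hp₀]

theorem whl (hphd : PhdStmt) : WhlStmt := by
  intro V _ A W
  have hHol : A.Hol (fun p => W.W p) := by
    refine A.hol_of_lift W.cont (Ψ := Phi) ?_ ?_
    · have : (fun p => Phi (W.W p)) = A.E := funext W.Phi_W
      rw [this]; exact A.hol_E
    · intro p
      obtain ⟨L, hL, -⟩ := (hphd _ (W.mem p)).2.2.2.2.2
      exact ⟨L, hL⟩
  refine ⟨hHol, fun p v => ?_⟩
  obtain ⟨hM, hlam, hyu, -, -, L, hL, hLv⟩ := hphd _ (W.mem p)
  -- chain rule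
  have h1 : HasFDerivAt (fun m => W.W (A.sec p m))
      (fderiv ℂ (fun m => W.W (A.sec p m)) (A.E p)) (A.E p) := (hHol p).hasFDerivAt
  have hp : A.sec p (A.E p) = p := A.sec_self p
  have h2 : HasFDerivAt Phi (L : (ℂ × ℂ) →L[ℂ] (ℂ × ℂ)) (W.W (A.sec p (A.E p))) := by
    rw [hp]; exact hL.hasFDerivAt
  have h3 := h2.comp (A.E p) h1
  have h4 : HasFDerivAt (fun m : ℂ × ℂ => m)
      ((L : (ℂ × ℂ) →L[ℂ] (ℂ × ℂ)).comp (fderiv ℂ (fun m => W.W (A.sec p m)) (A.E p))) (A.E p) := by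
    refine h3.congr_of_eventuallyEq ?_
    filter_upwards [isOpen_ball.mem_nhds (A.self_mem p)] with m hm
    simp only [Function.comp]
    rw [W.Phi_W, A.E_sec p m hm]
  have h5 := h4.unique (hasFDerivAt_id (A.E p))
  have h6 : L (fderiv ℂ (fun m => W.W (A.sec p m)) (A.E p) v) = v := by
    have := congrArg (fun f : (ℂ × ℂ) →L[ℂ] (ℂ × ℂ) => f v) h5
    simpa using this
  rw [hLv] at h6
  set w := fderiv ℂ (fun m => W.W (A.sec p m)) (A.E p) v with hw
  have e1 : deriv lam (W.W p).1 * w.1 = v.1 := congrArg Prod.fst h6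
  have e2 : yt (W.W p) * w.1 + yu (W.W p) * w.2 = v.2 := congrArg Prod.snd h6
  have e3 : w.1 = v.1 / deriv lam (W.W p).1 := by
    rw [eq_div_iff hlam, ← e1]; ring
  refine Prod.ext e3 ?_
  change w.2 = _
  rw [eq_div_iff hyu, ← e3, ← e2]
  ring

end Pool.Agent.H63.TC
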