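import Pool.Agent.H63.TC.FinDefs

/-!
# Project TC: assembly
-/

open Complex Metric Set Filter Topology

namespace Pool.Agent.H63.TC

/-- good cones are trivial -/
theorem pro (hw : WneStmt) (hb : BzzStmt) (hc : CccStmt) : ProStmt := by
  intro V _ _ A C hC ξ hξ
  by_contra hne
  push Not at hne
  obtain ⟨W⟩ := hw V A
  obtain ⟨ξ', hξ', κ, α, β, hκ, hαβ, h⟩ := hb V A W C ξ hC hξ hne
  exact hκ (hc V A W C ξ' κ α β hC hξ' hαβ h)

/-- the cone is trivial -/
theorem zer (hp : ProStmt) (hs : SwpStmt) (hccl : CclStmt) : ZerStmt := by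
  -- first application: vertical fields
  have key : ∀ (V : Type) [TopologicalSpace V] [SimplyConnectedSpace V] (A : Atlas V)
      (ξ : V → ℂ × ℂ), A.Cone ξ → (∀ p, (ξ p).2 = 0) → ∀ p, ξ p = 0 := by
    intro V _ _ A ξ hξ h2
    refine hp V A (fun ξ => A.Cone ξ ∧ ∀ p, (ξ p).2 = 0) ⟨?_, ?_, ?_, ?_, ?_⟩ ξ ⟨hξ, h2⟩
    · exact fun ξ h => h.1
    · intro ξ h r hr
      refine ⟨(hccl V A).2.1 ξ h.1 r hr, fun p => ?_⟩
      simp [h.2 p]
    · intro ξ h g hg
      exact ⟨(hccl V A).2.2 ξ h.1 g hg, fun p => h.2 _⟩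
    · intro l f ξ hf hlim
      refine ⟨(hccl V A).1 ℕ l f ξ inferInstance (fun n => (hf n).1) hlim, fun p => ?_⟩
      have h3 : Tendsto (fun n => f n p) (l : Filter ℕ) (𝓝 (ξ p)) := by
        rw [Metric.tendsto_nhds]
        intro ε hε
        obtain ⟨t, ht, h⟩ := hlim _ (Metric.dist_mem_uniformity hε) p
        filter_upwards [h] with n hn
        have := hn p (mem_of_mem_nhds ht)
        rw [dist_comm]; exact this
      have h4 : Tendsto (fun n => (f n p).2) (l : Filter ℕ) (𝓝 (ξ p).2) :=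
        (continuous_snd.tendsto _).comp h3
      have h5 : (fun n => (f n p).2) = fun _ => 0 := funext fun n => (hf n).2 p
      rw [h5] at h4
      exact tendsto_nhds_unique h4 tendsto_const_nhds
    · intro ξ h h1 p
      exact Prod.ext (h1 p) (h.2 p)
  intro V _ _ A
  refine hp V A A.Cone ⟨fun _ h => h, (hccl V A).2.1, (hccl V A).2.2, ?_, ?_⟩
  · intro l f ξ hf hlim
    exact (hccl V A).1 ℕ l f ξ inferInstance hf hlim
  · intro ξ hξ h1 p
    have h2 := key V A.swap (fun p => (ξ p).swap) (hs V A ξ hξ) (fun p => h1 p) p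
    simpa [Prod.ext_iff, and_comm] using h2

/-- **The main theorem**: the universal covering of `G_4` is not holomorphically contractible. -/
theorem main (hz : ZerStmt) (hn : NzeStmt) (hh : HmtStmt) (hs : SliStmt) :
    ∀ (X : Type) [TopologicalSpace X] [SimplyConnectedSpace X] (p : X → GG 4),
      IsCoveringMap p → ¬ HolContractible p := by
  intro X _ _ p hp ⟨x₀, F, hF, hF0, hF1, hFh⟩
  obtain ⟨V, _, _, A, j, π, hj, hπ, hπj, hA⟩ := hs X p hp
  obtain ⟨G, hG, hGid, hGne⟩ := hh V A (fun x => π (F (j x.1, x.2))) (π x₀)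
    (by fun_prop) (fun v => by simp [hF0, hπj]) (fun v => by simp [hF1])
    (fun t => hA _ (hFh t))
  obtain ⟨ξ, hξ, q, hq⟩ := hn V A G hG hGid hGne
  exact hq (hz V A ξ hξ q)

end Pool.Agent.H63.TC
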