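import Pool.Agent.H63.TC.Lifts

/-!
# Project TC: `W : V → YY` is a surjective covering map
-/

open Complex Metric Set Filter Topology

namespace Pool.Agent.H63.TC

lemma wcv_isPreconnected_YY : IsPreconnected YY := by
  have h1 : IsPreconnected {τ : ℂ | 0 < τ.im} := convex_upperC.isPreconnected
  have h2 : IsPreconnected ({c : ℝ × ℝ | (∃ m : ℤ, c.1 = m) ∧ ∃ n : ℤ, c.2 = n}ᶜ) := by
    have hcount : {c : ℝ × ℝ | (∃ m : ℤ, c.1 = m) ∧ ∃ n : ℤ, c.2 = n}.Countable := by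
      have : {c : ℝ × ℝ | (∃ m : ℤ, c.1 = m) ∧ ∃ n : ℤ, c.2 = n} =
          Set.range (fun k : ℤ × ℤ => ((k.1 : ℝ), (k.2 : ℝ))) := by
        ext c
        constructor
        · rintro ⟨⟨m, hm⟩, ⟨n, hn⟩⟩
          exact ⟨(m, n), Prod.ext hm.symm hn.symm⟩
        · rintro ⟨k, rfl⟩
          exact ⟨⟨k.1, rfl⟩, ⟨k.2, rfl⟩⟩
      rw [this]
      exact Set.countable_range _
    have hrank : 1 < Module.rank ℝ (ℝ × ℝ) := by
      simp [one_add_one_eq_two]
    exact (hcount.isPathConnected_compl_of_one_lt_rank hrank).isConnected.isPreconnected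
  have h3 := h1.prod h2
  have h4 : ContinuousOn (fun x : ℂ × (ℝ × ℝ) => (x.1, (x.2.1 : ℂ) * x.1 + x.2.2))
      ({τ : ℂ | 0 < τ.im} ×ˢ {c : ℝ × ℝ | (∃ m : ℤ, c.1 = m) ∧ ∃ n : ℤ, c.2 = n}ᶜ) := by
    refine Continuous.continuousOn ?_
    fun_prop
  have h5 := h3.image _ h4
  convert h5 using 1
  ext q
  constructor
  · intro hq
    refine ⟨(q.1, (ca q, cb q)), ⟨hq.1, ?_⟩, ?_⟩
    · intro h
      apply hq.2
      rw [lat_iff hq.1]
      exact h
    · exact Prod.ext rfl (ca_cb hq.1)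
  · rintro ⟨x, ⟨hx1, hx2⟩, rfl⟩
    exact leaf_mem_YY hx1 hx2

/-- local injectivity of the elliptic structure -/
lemma Ell.injOn_near {V : Type} [TopologicalSpace V] {A : Atlas V} (W : Ell A) (x : V) :
    ∃ O ∈ 𝓝 x, InjOn W.W O := by
  refine ⟨{q | A.sec x (A.E q) = q}, A.near x, ?_⟩
  intro q hq q' hq' h
  have hE : A.E q = A.E q' := by rw [← W.Phi_W, ← W.Phi_W, h]
  have h1 : A.sec x (A.E q) = q := hq
  have h2 : A.sec x (A.E q') = q' := hq'
  rw [← h1, ← h2, hE]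

theorem wcv (hcov : CovStmt) (hliw : LiwStmt) : WcvStmt := by
  intro V _ _ A W
  have hT2 : T2Space V := A.t2
  -- sections over balls
  have hsec : ∀ n₀ : YY, ∃ U, IsOpen U ∧ n₀ ∈ U ∧ IsPreconnected U ∧
      ∀ x : V, (⟨W.W x, W.mem x⟩ : YY) ∈ U → ∃ s : YY → V, ContinuousOn s U ∧
        (∀ n ∈ U, (⟨W.W (s n), W.mem (s n)⟩ : YY) = n) ∧ s ⟨W.W x, W.mem x⟩ = x := by
    intro n₀
    obtain ⟨ε, hε, hb⟩ := Metric.isOpen_iff.1 isOpen_YY n₀ n₀.2
    refine ⟨Subtype.val ⁻¹' (ball (n₀ : ℂ × ℂ) ε), isOpen_ball.preimage continuous_subtype_val,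
      mem_ball_self hε, ?_, ?_⟩
    · have hind : Topology.IsInducing (Subtype.val : YY → ℂ × ℂ) := Topology.IsInducing.subtypeVal
      rw [← hind.isPreconnected_image]
      have : (Subtype.val : YY → ℂ × ℂ) '' (Subtype.val ⁻¹' (ball (n₀ : ℂ × ℂ) ε)) =
          ball (n₀ : ℂ × ℂ) ε := by
        rw [Subtype.image_preimage_coe]
        exact inter_eq_right.2 hb
      rw [this]
      exact (convex_ball _ _).isPreconnected
    · intro x hx
      obtain ⟨G, hGc, hGW, hG0⟩ := hliw V A W (ℂ × ℂ) (ball (n₀ : ℂ × ℂ) ε) id (W.W x) x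
        (convex_ball _ _) hx continuousOn_id (fun s hs => hb hs) rfl
      refine ⟨fun n => G n, hGc.comp continuous_subtype_val.continuousOn (fun n hn => hn), ?_, hG0⟩
      intro n hn
      exact Subtype.ext (hGW n hn)
  have hc : IsCoveringMap (fun p => (⟨W.W p, W.mem p⟩ : YY)) := by
    refine hcov V YY _ (Continuous.subtype_mk W.cont _) ?_ hsec
    intro x
    obtain ⟨O, hO, hinj⟩ := W.injOn_near x
    exact ⟨O, hO, fun q hq q' hq' h => hinj hq hq' (congrArg Subtype.val h)⟩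
  refine ⟨hc, ?_⟩
  have : PreconnectedSpace YY := isPreconnected_iff_preconnectedSpace.1 wcv_isPreconnected_YY
  have hclopen : IsClopen (Set.range (fun p => (⟨W.W p, W.mem p⟩ : YY))) := by
    refine ⟨?_, hc.isOpenMap.isOpen_range⟩
    rw [← isOpen_compl_iff, isOpen_iff_mem_nhds]
    intro n hn
    obtain ⟨U, hU, hnU, -, hs⟩ := hsec n
    refine mem_of_superset (hU.mem_nhds hnU) ?_
    rintro n' hn' ⟨x, rfl⟩
    obtain ⟨s, -, hs2, -⟩ := hs x hn'
    exact hn ⟨s n, hs2 n hnU⟩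
  obtain ⟨p₀⟩ : Nonempty V := inferInstance
  have := hclopen.eq_univ ⟨_, ⟨p₀, rfl⟩⟩
  exact Set.range_eq_univ.1 this

end Pool.Agent.H63.TC
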