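import Pool.Agent.H63.TC.Stmts

/-!
# Project TC: shared auxiliary lemmas (with module statements as hypotheses)
-/

open Complex Metric Set Filter Topology

namespace Pool.Agent.H63.TC

lemma isOpen_upperC : IsOpen {τ : ℂ | 0 < τ.im} := isOpen_lt continuous_const Complex.continuous_im

lemma convex_upperC : Convex ℝ {τ : ℂ | 0 < τ.im} := convex_halfSpace_im_gt 0

lemma continuousOn_deriv_lam (h : LmdStmt) : ContinuousOn (deriv lam) {τ : ℂ | 0 < τ.im} := by
  have h1 : DifferentiableOn ℂ lam {τ : ℂ | 0 < τ.im} :=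
    fun τ hτ => (h τ hτ).1.differentiableWithinAt
  exact (h1.deriv isOpen_upperC).continuousOn

variable {V : Type} [TopologicalSpace V] {A : Atlas V}

lemma Ell.continuous_dlam (W : Ell A) (h : LmdStmt) :
    Continuous (fun p => deriv lam (W.W p).1) := by
  have h1 := continuousOn_deriv_lam h
  exact h1.comp_continuous (continuous_fst.comp W.cont) (fun p => (W.mem p).1)

lemma Ell.dlam_ne (W : Ell A) (h : LmdStmt) (p : V) : deriv lam (W.W p).1 ≠ 0 :=
  (h _ (W.mem p).1).2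

lemma Ell.continuous_hh (W : Ell A) (h : LmdStmt) {ξ : V → ℂ × ℂ} (hξ : Continuous ξ) :
    Continuous (W.hh ξ) := by
  unfold Ell.hh
  exact (continuous_fst.comp hξ).div (W.continuous_dlam h) (W.dlam_ne h)

lemma Ell.hh_eq_zero_iff (W : Ell A) (h : LmdStmt) {ξ : V → ℂ × ℂ} {p : V} :
    W.hh ξ p = 0 ↔ (ξ p).1 = 0 := by
  unfold Ell.hh
  rw [div_eq_zero_iff]
  exact or_iff_left (W.dlam_ne h p)

/-- image of the disc under `cay` -/
lemma one_sub_ne_zero {z : ℂ} (hz : z ∈ ball (0 : ℂ) 1) : (1 - z) ≠ 0 := by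
  intro h
  have : z = 1 := by linear_combination -h
  rw [this] at hz
  simp at hz

lemma continuousOn_cay (τ : ℂ) : ContinuousOn (cay τ) (ball (0 : ℂ) 1) := by
  unfold cay
  refine ContinuousOn.div (by fun_prop) (by fun_prop) (fun z hz => one_sub_ne_zero hz)

lemma dense_seq : ∃ D : ℕ → ℝ × ℂ, (∀ j, (D j).2 ∈ ball (0 : ℂ) 1) ∧
    ∀ q : ℝ × ℂ, q.2 ∈ ball (0 : ℂ) 1 → q ∈ closure (range D) := by
  have : Nonempty {q : ℝ × ℂ // q.2 ∈ ball (0 : ℂ) 1} := ⟨⟨(0, 0), by simp⟩⟩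
  obtain ⟨D, hD⟩ := TopologicalSpace.exists_dense_seq {q : ℝ × ℂ // q.2 ∈ ball (0 : ℂ) 1}
  refine ⟨fun j => (D j : ℝ × ℂ), fun j => (D j).2, fun q hq => ?_⟩
  have h1 : (⟨q, hq⟩ : {q : ℝ × ℂ // q.2 ∈ ball (0 : ℂ) 1}) ∈ closure (range D) := hD _
  rw [closure_subtype] at h1
  rwa [← range_comp] at h1

end Pool.Agent.H63.TC
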