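import Pool.Agent.H12.TC.ZOM
import Pool.Agent.H16.TC.CCC
import Pool.Agent.H16.TC.FIB
import Pool.Agent.H16.TC.FIJ
import Pool.Agent.H16.TC.MXP
import Pool.Agent.H21.TC.BND
import Pool.Agent.H21.TC.IDT
import Pool.Agent.H21.TC.NRM
import Pool.Agent.H24.TC.HAR
import Pool.Agent.H24.TC.MEA
import Pool.Agent.H24.TC.PHD
import Pool.Agent.H28.TC.COV
import Pool.Agent.H28.TC.LIFE
import Pool.Agent.H28.TC.MMC
import Pool.Agent.H28.TC.PHC
import Pool.Agent.H31.TC.Cu1
import Pool.Agent.H4.TC.Bpl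
import Pool.Agent.H4.TC.Mon
import Pool.Agent.H4.TC.Nze
import Pool.Agent.H45.TC.Z2
import Pool.Agent.H47.TC.Inv
import Pool.Agent.H47.TC.Sl2
import Pool.Agent.H62.TC.Ccl
import Pool.Agent.H62.TC.Cho
import Pool.Agent.H62.TC.Psh
import Pool.Agent.H63.TC.BZZ
import Pool.Agent.H63.TC.Lifts
import Pool.Agent.H63.TC.WCV
import Pool.Agent.H64.TC.FLO
import Pool.Agent.H64.TC.ROT
import Pool.Agent.H64.TC.RTH
import Pool.Agent.H64.TC.SLI
import Pool.Agent.H72.TC.BCC
import Pool.Agent.H72.TC.FND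
import Pool.Agent.H74.TC.Hlf
import Pool.Agent.H74.TC.Hyp
import Pool.Agent.H74.TC.Lef
import Pool.Agent.H74.TC.Lio
import Pool.Agent.H74.TC.Ode
import Pool.Agent.H74.TC.Pdf
import Pool.Agent.H74.TC.Pol
import Pool.Agent.H74.TC.Snb
import Pool.Agent.H78.TC.DSC
import Pool.Agent.H78.TC.GRO
import Pool.Agent.H78.TC.ZM1
import Pool.Agent.H79.TC.Lmd
import Pool.Agent.H79.TC.Osg
import Pool.Agent.H79.TC.Z1
import Pool.Agent.H79.TC.ZZZ
import Pool.Agent.H85.TC.C2d
import Pool.Agent.H85.TC.Mod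
import Pool.Agent.H85.TC.Rec
import Pool.Agent.H90.TC.Eqv
import Pool.Agent.H90.TC.L2c
import Pool.Agent.H90.TC.Low
import Pool.Agent.H90.TC.Tht
import Pool.Agent.H90.TC.Two
import Pool.Agent.H90.TC.Wkt
import Pool.Agent.H95.TC.Zpr
import Pool.Agent.H99.TC.A1
import Pool.Agent.H99.TC.CE1
import Pool.Agent.H63.TC.Main

/-! # Project TC: all modules together -/

namespace Pool.Agent.H63.TC

theorem f_atl : AtlStmt := atl 
theorem f_cov : CovStmt := cov 
theorem f_deck : DeckStmt := deck 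
theorem f_life : LifeStmt := life 
theorem f_mmc : MmcStmt := mmc 
theorem f_c2d : C2dStmt := c2d 
theorem f_snb : SnbStmt := snb 
theorem f_cu1 : Cu1Stmt := cu1 f_snb
theorem f_cu2 : Cu2Stmt := cu2 f_snb
theorem f_lih : LihStmt := lih 
theorem f_pdf : PdfStmt := pdf f_snb f_lih
theorem f_lio : LioStmt := lio 
theorem f_prg : PrgStmt := prg f_snb f_lih
theorem f_hlf : HlfStmt := hlf f_lio f_pdf f_prg
theorem f_ode : OdeStmt := ode f_lio f_pdf f_prg f_hlf
theorem f_lmd : LmdStmt := lmd f_pdf f_hlf f_ode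
theorem f_cu3 : Cu3Stmt := cu3 f_cu1 f_lmd
theorem f_mod : ModStmt := mod 
theorem f_sl2 : Sl2Stmt := sl2 f_lio f_pdf f_prg
theorem f_six : SixStmt := six f_sl2 f_pdf f_hlf
theorem f_inv : InvStmt := inv f_sl2 f_pdf
theorem f_fnd : FndStmt := fnd f_pdf f_prg f_hlf f_mod f_six f_inv f_cu1
theorem f_phd : PhdStmt := phd f_pdf f_hlf f_ode f_lmd f_c2d
theorem f_uni : UniStmt := uni f_phd
theorem f_phc : PhcStmt := phc f_cov f_uni f_fnd f_inv f_mmc f_phd
theorem f_unq : UnqStmt := unq f_phc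
theorem f_liw : LiwStmt := liw f_life f_unq f_phd
theorem f_lmt : LmtStmt := lmt f_inv f_lmd
theorem f_pol : PolStmt := pol f_pdf f_prg f_hlf
theorem f_wcv : WcvStmt := wcv f_cov f_liw
theorem f_wex : WexStmt := wex f_phc
theorem f_whl : WhlStmt := whl f_phd
theorem f_wne : WneStmt := wne f_phc
theorem f_two : TwoStmt := two 
theorem f_nrm : NrmStmt := nrm f_two f_whl f_wne f_lmd
theorem f_cau : CauStmt := cau 
theorem f_har : HarStmt := har f_nrm f_cau
theorem f_bnd : BndStmt := bnd f_har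
theorem f_cho : ChoStmt := cho f_lih
theorem f_der : DerStmt := der 
theorem f_bpl : BplStmt := bpl f_cho f_der f_whl f_phd f_lmd
theorem f_ccl : CclStmt := ccl 
theorem f_mon : MonStmt := mon f_lih f_cau
theorem f_cpt : CptStmt := cpt f_bnd f_mon f_ccl f_cho
theorem f_hmt : HmtStmt := hmt 
theorem f_idt : IdtStmt := idt 
theorem f_ids : IdsStmt := ids f_idt
theorem f_nze : NzeStmt := nze f_ids f_har f_mon
theorem f_psh : PshStmt := psh f_cau f_cho
theorem f_swp : SwpStmt := swp 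
theorem f_l2c : L2cStmt := l2c 
theorem f_wkt : WktStmt := wkt 
theorem f_low : LowStmt := low 
theorem f_bcc : BccStmt := bcc f_l2c f_wkt f_low
theorem f_gro : GroStmt := gro 
theorem f_mea : MeaStmt := mea 
theorem f_rec : RecStmt := rec 
theorem f_lef : LefStmt := lef f_liw
theorem f_zm1 : Zm1Stmt := zm1 
theorem f_zm2 : Zm2Stmt := zm2 f_wcv f_inv f_deck f_unq
theorem f_hyp : HypStmt := hyp f_liw f_phd f_idt
theorem f_zom : ZomStmt := zom f_cpt f_zm1 f_zm2 f_lmt f_liw f_hyp f_idt f_cho f_phd f_whl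
theorem f_bzz : BzzStmt := bzz f_lmd f_lef f_bpl f_cho f_bcc f_mea f_rec f_zom f_zm1
theorem f_fib : FibStmt := fib f_zm2
theorem f_fij : FijStmt := fij f_liw f_wcv f_deck f_unq
theorem f_z1 : Z1Stmt := z1 f_hlf f_cu1 f_cu2 f_pol f_phc f_phd f_atl f_life
theorem f_z2 : Z2Stmt := z2 f_liw f_bpl f_gro f_lmd f_zm1
theorem f_zzz : ZzzStmt := zzz f_hlf f_z1 f_z2 f_wex f_unq f_cu3 f_pol f_swp f_phd
theorem f_tht : ThtStmt := tht f_wcv f_phd f_whl
theorem f_zpr : ZprStmt := zpr f_zzz f_tht f_whl f_psh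
theorem f_ce1 : Ce1Stmt := ce1 f_cpt f_bnd f_cho f_lmd
theorem f_eqv : EqvStmt := eqv f_inv f_phd
theorem f_mxp : MxpStmt := mxp f_liw f_phd
theorem f_ccc : CccStmt := ccc f_fib f_fij f_zpr f_ce1 f_eqv f_mxp f_cpt f_cho f_phd f_phc f_wcv f_liw
theorem f_dsc : DscStmt := dsc 
theorem f_flo : FloStmt := flo f_dsc
theorem f_rot : RotStmt := rot f_dsc
theorem f_rth : RthStmt := rth f_dsc
theorem f_scv : ScvStmt := scv 
theorem f_sli : SliStmt := sli f_dsc f_scv
theorem f_pro : ProStmt := pro f_wne f_bzz f_ccc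
theorem f_zer : ZerStmt := zer f_pro f_swp f_ccl

theorem final : ∀ (X : Type) [TopologicalSpace X] [SimplyConnectedSpace X] (p : X → GG 4),
    IsCoveringMap p → ¬ HolContractible p := main f_zer f_nze f_hmt f_sli

end Pool.Agent.H63.TC
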