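import Pool.Agent.H63.TC.YBasic

/-!
# Project TC: statements of the modules
-/

open Complex Metric Set Filter Topology MeasureTheory

namespace Pool.Agent.H63.TC

/-! ## Part 1: topology -/

/-- COV: a locally injective continuous map with sections over a preconnected neighbourhood of
every point, through every point of the preimage, is a covering map. -/
def CovStmt : Prop :=
  ∀ (X N : Type) [TopologicalSpace X] [T2Space X] [TopologicalSpace N] (π : X → N),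
    Continuous π → (∀ x, ∃ O ∈ 𝓝 x, InjOn π O) →
    (∀ n₀ : N, ∃ U, IsOpen U ∧ n₀ ∈ U ∧ IsPreconnected U ∧ ∀ x, π x ∈ U →
      ∃ s : N → X, ContinuousOn s U ∧ (∀ n ∈ U, π (s n) = n) ∧ s (π x) = x) →
    IsCoveringMap π

/-- ATL: a covering of `MM` has an atlas. -/
def AtlStmt : Prop :=
  ∀ (V : Type) [TopologicalSpace V] (E : V → ℂ × ℂ) (mem : ∀ p, E p ∈ MM),
    IsCoveringMap (fun p => (⟨E p, mem p⟩ : MM)) → ∃ A : Atlas V, A.E = E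

/-- DECK: the deck group is transitive on the fibres of `E`. -/
def DeckStmt : Prop :=
  ∀ (V : Type) [TopologicalSpace V] [SimplyConnectedSpace V] (A : Atlas V) (p q : V),
    A.E p = A.E q → ∃ g : V ≃ₜ V, (∀ x, A.E (g x) = A.E x) ∧ g p = q

/-- LIFE: lifting of maps on convex sets through `E`. -/
def LifeStmt : Prop :=
  ∀ (V : Type) [TopologicalSpace V] (A : Atlas V) (N : Type) [NormedAddCommGroup N]
    [NormedSpace ℝ N] (S : Set N) (g : N → ℂ × ℂ) (s₀ : N) (p₀ : V), Convex ℝ S → s₀ ∈ S →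
    ContinuousOn g S → (∀ s ∈ S, g s ∈ MM) → A.E p₀ = g s₀ →
    ∃ G : N → V, ContinuousOn G S ∧ (∀ s ∈ S, A.E (G s) = g s) ∧ G s₀ = p₀

/-- MMC: `MM` is connected. -/
def MmcStmt : Prop := IsConnected MM

/-! ## Part 2: elliptic functions -/

/-- PDF: `P` is holomorphic in both variables off the lattice; periodicity and parity. -/
def PdfStmt : Prop :=
  DifferentiableOn ℂ (fun q : ℂ × ℂ => P q.1 q.2) YY ∧
  (∀ τ : ℂ, 0 < τ.im → ∀ z, P τ (z + 1) = P τ z ∧ P τ (z + τ) = P τ z ∧ P τ (-z) = P τ z)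

/-- C2D: holomorphic functions of two variables are twice differentiable. -/
def C2dStmt : Prop :=
  ∀ (f : ℂ × ℂ → ℂ) (U : Set (ℂ × ℂ)), IsOpen U → DifferentiableOn ℂ f U →
    DifferentiableOn ℂ (fun q => deriv (fun s => f (s, q.2)) q.1) U ∧
    DifferentiableOn ℂ (fun q => deriv (fun s => f (q.1, s)) q.2) U ∧
    (∀ q ∈ U, deriv (fun s => deriv (fun x => f (s, x)) q.2) q.1 =
      deriv (fun x => deriv (fun s => f (s, x)) q.1) q.2) ∧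
    (∀ q ∈ U, HasStrictFDerivAt f (fderiv ℂ f q) q) ∧
    (∀ q ∈ U, ∀ v : ℂ × ℂ, fderiv ℂ f q v =
      deriv (fun s => f (s, q.2)) q.1 * v.1 + deriv (fun s => f (q.1, s)) q.2 * v.2)

/-- SNB: the size of the terms of the series. -/
def SnbStmt : Prop :=
  ∀ w : ℂ, w.im ≠ 0 →
    ‖(Real.pi : ℂ) ^ 2 / (Complex.sin (Real.pi * w)) ^ 2‖ ≤
      Real.pi ^ 2 / (Real.sinh (Real.pi * w.im)) ^ 2 ∧
    (1 / 2 ≤ |w.im| → ‖(Real.pi : ℂ) ^ 2 / (Complex.sin (Real.pi * w)) ^ 2‖ ≤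
      50 * Real.exp (-2 * Real.pi * |w.im|))

/-- PRG: the regular part of `P` at `z = 0`. -/
def PrgStmt : Prop :=
  DifferentiableOn ℂ
    (fun q : ℂ × ℂ => P q.1 q.2 - (Real.pi : ℂ) ^ 2 / (Complex.sin (Real.pi * q.2)) ^ 2)
    {q | 0 < q.1.im ∧ |q.2.im| < q.1.im}

/-- LIO: doubly periodic functions, holomorphic off the lattice and bounded near `0`, are
constant. -/
def LioStmt : Prop :=
  ∀ (w₁ w₂ : ℂ), (∀ x y : ℝ, x * w₁ + y * w₂ = 0 → x = 0 ∧ y = 0) → ∀ f : ℂ → ℂ,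
    (∀ z, f (z + w₁) = f z) → (∀ z, f (z + w₂) = f z) →
    DifferentiableOn ℂ f {z | ¬ ∃ m n : ℤ, z = m * w₁ + n * w₂} →
    (∃ r > 0, ∃ C : ℝ, ∀ z, z ≠ 0 → ‖z‖ < r → ‖f z‖ ≤ C) →
    ∃ c, ∀ z, (¬ ∃ m n : ℤ, z = m * w₁ + n * w₂) → f z = c

/-- SL2: transformation law of `P` up to an additive constant. -/
def Sl2Stmt : Prop :=
  ∀ a b c d : ℤ, a * d - b * c = 1 → ∀ τ : ℂ, 0 < τ.im → ∃ κ : ℂ, ∀ z, ¬ Lat τ z →
    P ((a * τ + b) / (c * τ + d)) (z / (c * τ + d)) = (c * τ + d) ^ 2 * P τ z + κ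

/-- HLF: the values at the half periods. -/
def HlfStmt : Prop :=
  ∀ τ : ℂ, 0 < τ.im → e1 τ ≠ e2 τ ∧ e1 τ ≠ e3 τ ∧ e2 τ ≠ e3 τ ∧
    ∀ z, ¬ Lat τ (2 * z) → P τ z ≠ e1 τ ∧ P τ z ≠ e2 τ ∧ P τ z ≠ e3 τ

/-- ODE: the differential equation of `P`. -/
def OdeStmt : Prop :=
  ∀ τ : ℂ, 0 < τ.im → ∀ z, ¬ Lat τ (2 * z) →
    (deriv (P τ) z) ^ 2 = 4 * (P τ z - e1 τ) * (P τ z - e2 τ) * (P τ z - e3 τ)

/-- LMD: `lam` is holomorphic with nonvanishing derivative. -/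
def LmdStmt : Prop :=
  ∀ τ : ℂ, 0 < τ.im → DifferentiableAt ℂ lam τ ∧ deriv lam τ ≠ 0

/-- PHD: `Phi` is a local biholomorphism from `YY` to `MM`. -/
def PhdStmt : Prop :=
  ∀ q ∈ YY, Phi q ∈ MM ∧ deriv lam q.1 ≠ 0 ∧ yu q ≠ 0 ∧
    DifferentiableAt ℂ yt q ∧ DifferentiableAt ℂ yu q ∧
    ∃ L : (ℂ × ℂ) ≃L[ℂ] (ℂ × ℂ), HasStrictFDerivAt Phi (L : (ℂ × ℂ) →L[ℂ] (ℂ × ℂ)) q ∧
      ∀ v : ℂ × ℂ, L v = (deriv lam q.1 * v.1, yt q * v.1 + yu q * v.2)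

/-- INV: invariance of `Phi` under `Γ(2) ⋉ (2ℤ)²`. -/
def InvStmt : Prop :=
  ∀ a b c d m n : ℤ, G2 a b c d → ∀ q ∈ YY,
    act a b c d m n q ∈ YY ∧ Phi (act a b c d m n q) = Phi q

/-- CU1: behaviour of `lam` at the cusp. -/
def Cu1Stmt : Prop :=
  ∀ ε > 0, ∃ R : ℝ, ∀ τ : ℂ, R < τ.im → ‖lam τ * exp (Real.pi * I * τ) - 1 / 16‖ < ε

/-- CU2: behaviour of `yy` at the cusp. -/
def Cu2Stmt : Prop :=
  ∀ C : ℝ, ∀ ε > 0, ∃ R : ℝ, ∀ τ : ℂ, R < τ.im → ∀ v : ℂ, ‖v‖ ≤ C →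
    ‖yy τ (τ + v) - (sin (Real.pi * v / 2)) ^ 2‖ < ε

/-- CU3: logarithmic derivative of `lam` at the cusp. -/
def Cu3Stmt : Prop :=
  ∃ R C : ℝ, ∀ τ : ℂ, R < τ.im → ‖deriv lam τ‖ ≤ C * ‖lam τ‖

/-- POL: behaviour of `yy` at the pole. -/
def PolStmt : Prop :=
  ∀ τ : ℂ, 0 < τ.im →
    Tendsto (fun u : ℂ => u ^ 2 * yy τ u) (𝓝[≠] 0) (𝓝 (4 / (e2 τ - e1 τ))) ∧
    Tendsto (fun u : ℂ => u ^ 3 * yu (τ, u)) (𝓝[≠] 0) (𝓝 (-8 / (e2 τ - e1 τ))) ∧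
    ∃ r > 0, ∃ C : ℝ, ∀ u : ℂ, u ≠ 0 → ‖u‖ < r → ‖u ^ 2 * yt (τ, u)‖ ≤ C

/-- SIX: `lam` at equivalent points of the upper half plane. -/
def SixStmt : Prop :=
  ∀ a b c d : ℤ, a * d - b * c = 1 → ∀ τ : ℂ, 0 < τ.im →
    lam ((a * τ + b) / (c * τ + d)) ∈ ({lam τ, 1 - lam τ, 1 / lam τ, 1 / (1 - lam τ),
      lam τ / (lam τ - 1), (lam τ - 1) / lam τ} : Set ℂ)

/-- MOD: reduction of a point of the upper half plane by `Γ(2)` to one of six domains. -/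
def ModStmt : Prop :=
  ∀ τ : ℂ, 0 < τ.im → ∃ a b c d a' b' c' d' : ℤ, G2 a b c d ∧ a' * d' - b' * c' = 1 ∧
    |a'| ≤ 1 ∧ |b'| ≤ 1 ∧ |c'| ≤ 1 ∧ |d'| ≤ 1 ∧
    |((a' * ((a * τ + b) / (c * τ + d)) + b') / (c' * ((a * τ + b) / (c * τ + d)) + d') : ℂ).re|
      ≤ 1 / 2 ∧
    Real.sqrt 3 / 2 ≤
      ((a' * ((a * τ + b) / (c * τ + d)) + b') / (c' * ((a * τ + b) / (c * τ + d)) + d') : ℂ).im

/-- FND: properness of `Phi` modulo `Γ(2) ⋉ (2ℤ)²`. -/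
def FndStmt : Prop :=
  ∀ K : Set (ℂ × ℂ), IsCompact K → K ⊆ MM → ∃ K' : Set (ℂ × ℂ), IsCompact K' ∧ K' ⊆ YY ∧
    ∀ q ∈ YY, Phi q ∈ K → ∃ a b c d m n : ℤ, G2 a b c d ∧ act a b c d m n q ∈ K'

/-- UNI: local sections of `Phi` of uniform size on compact sets. -/
def UniStmt : Prop :=
  ∀ K : Set (ℂ × ℂ), IsCompact K → K ⊆ YY → ∃ r > 0, ∀ q ∈ K, ∃ s : ℂ × ℂ → ℂ × ℂ,
    ContinuousOn s (ball (Phi q) r) ∧ (∀ m ∈ ball (Phi q) r, s m ∈ YY ∧ Phi (s m) = m) ∧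
    s (Phi q) = q

/-- PHC: `Phi : YY → MM` is a surjective covering map. -/
def PhcStmt : Prop :=
  ∃ h : ∀ q : YY, Phi (q : ℂ × ℂ) ∈ MM,
    IsCoveringMap (fun q : YY => (⟨Phi (q : ℂ × ℂ), h q⟩ : MM)) ∧
    Function.Surjective (fun q : YY => (⟨Phi (q : ℂ × ℂ), h q⟩ : MM))

/-- UNQ: uniqueness of lifts through `Phi`. -/
def UnqStmt : Prop :=
  ∀ (T : Type) [TopologicalSpace T] (S : Set T) (f g : T → ℂ × ℂ) (t₀ : T),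
    IsPreconnected S → ContinuousOn f S → ContinuousOn g S → (∀ t ∈ S, f t ∈ YY) →
    (∀ t ∈ S, g t ∈ YY) → (∀ t ∈ S, Phi (f t) = Phi (g t)) → t₀ ∈ S → f t₀ = g t₀ →
    ∀ t ∈ S, f t = g t

/-- WEX: existence of elliptic structures. -/
def WexStmt : Prop :=
  ∀ (V : Type) [TopologicalSpace V] [SimplyConnectedSpace V] (A : Atlas V) (p₀ : V) (q₀ : ℂ × ℂ),
    q₀ ∈ YY → Phi q₀ = A.E p₀ → ∃ W : Ell A, W.W p₀ = q₀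

/-- WNE: there is an elliptic structure. -/
def WneStmt : Prop :=
  ∀ (V : Type) [TopologicalSpace V] [SimplyConnectedSpace V] (A : Atlas V), Nonempty (Ell A)

/-- WCV: `W : V → YY` is a surjective covering map. -/
def WcvStmt : Prop :=
  ∀ (V : Type) [TopologicalSpace V] [SimplyConnectedSpace V] (A : Atlas V) (W : Ell A),
    IsCoveringMap (fun p => (⟨W.W p, W.mem p⟩ : YY)) ∧
    Function.Surjective (fun p => (⟨W.W p, W.mem p⟩ : YY))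

/-- LIW: lifting of maps on convex sets through `W`. -/
def LiwStmt : Prop :=
  ∀ (V : Type) [TopologicalSpace V] [SimplyConnectedSpace V] (A : Atlas V) (W : Ell A)
    (N : Type) [NormedAddCommGroup N] [NormedSpace ℝ N] (S : Set N) (g : N → ℂ × ℂ) (s₀ : N)
    (p₀ : V), Convex ℝ S → s₀ ∈ S → ContinuousOn g S → (∀ s ∈ S, g s ∈ YY) → W.W p₀ = g s₀ →
    ∃ G : N → V, ContinuousOn G S ∧ (∀ s ∈ S, W.W (G s) = g s) ∧ G s₀ = p₀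

/-- WHL: `W` is holomorphic on `V`; its derivative. -/
def WhlStmt : Prop :=
  ∀ (V : Type) [TopologicalSpace V] (A : Atlas V) (W : Ell A),
    A.Hol (fun p => W.W p) ∧ ∀ (p : V) (v : ℂ × ℂ),
      fderiv ℂ (fun m => W.W (A.sec p m)) (A.E p) v =
        (v.1 / deriv lam (W.W p).1,
          (v.2 - yt (W.W p) * (v.1 / deriv lam (W.W p).1)) / yu (W.W p))

/-! ## Part 3: holomorphic functions, normal families and the cone -/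

/-- LIH: locally uniform limits of holomorphic functions of two variables. -/
def LihStmt : Prop :=
  ∀ (F : Type) [NormedAddCommGroup F] [NormedSpace ℂ F] [CompleteSpace F] (ι : Type)
    (l : Filter ι) (f : ι → ℂ × ℂ → F) (g : ℂ × ℂ → F) (U : Set (ℂ × ℂ)), l.NeBot → IsOpen U →
    (∀ᶠ i in l, DifferentiableOn ℂ (f i) U) → TendstoLocallyUniformlyOn f g l U →
    DifferentiableOn ℂ g U

/-- CAU: Cauchy estimate on balls of `ℂ²`. -/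
def CauStmt : Prop :=
  ∀ (F : Type) [NormedAddCommGroup F] [NormedSpace ℂ F] [CompleteSpace F] (f : ℂ × ℂ → F)
    (m : ℂ × ℂ) (R M : ℝ), 0 < R → DifferentiableOn ℂ f (ball m R) →
    (∀ m' ∈ ball m R, ‖f m'‖ ≤ M) → ∀ m₁ ∈ ball m (R / 2), ∀ m₂ ∈ ball m (R / 2),
      ‖f m₁ - f m₂‖ ≤ 8 * M / R * ‖m₁ - m₂‖

/-- IDT: identity theorem on `V`. -/
def IdtStmt : Prop :=
  ∀ (V : Type) [TopologicalSpace V] [SimplyConnectedSpace V] (A : Atlas V) (F : Type)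
    [NormedAddCommGroup F] [NormedSpace ℂ F] [CompleteSpace F] (f g : V → F) (O : Set V),
    A.Hol f → A.Hol g → IsOpen O → O.Nonempty → (∀ p ∈ O, f p = g p) → ∀ p, f p = g p

/-- IDS: identity theorem for self-maps. -/
def IdsStmt : Prop :=
  ∀ (V : Type) [TopologicalSpace V] [SimplyConnectedSpace V] (A : Atlas V) (F : V → V)
    (O : Set V), A.HolSelf F → IsOpen O → O.Nonempty → (∀ p ∈ O, F p = p) → ∀ p, F p = p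

/-- TWO: a bounded holomorphic family on a ball which tends to `0` uniformly on a small ball
tends to `0` uniformly on the half ball. -/
def TwoStmt : Prop :=
  ∀ (m : ℂ × ℂ) (r R B : ℝ), 0 < r → r < R → ∀ ε > 0, ∃ δ > 0, ∀ f : ℂ × ℂ → ℂ,
    DifferentiableOn ℂ f (ball m R) → (∀ m' ∈ ball m R, ‖f m'‖ ≤ B) →
    (∀ m' ∈ ball m r, ‖f m'‖ ≤ δ) → ∀ m' ∈ ball m (R / 2), ‖f m'‖ ≤ ε

/-- NRM: self-maps converging to the identity on a set with interior converge everywhere. -/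
def NrmStmt : Prop :=
  ∀ (V : Type) [TopologicalSpace V] [SimplyConnectedSpace V] (A : Atlas V) (K₀ : Set V),
    (interior K₀).Nonempty → ∀ (ι : Type) (l : Filter ι) (F : ι → V → V),
      (∀ i, A.HolSelf (F i)) → (∀ c > 0, ∀ᶠ i in l, A.Close K₀ c (F i)) → A.ToId l F

/-- HAR: Harnack inequality for displacements. -/
def HarStmt : Prop :=
  ∀ (V : Type) [TopologicalSpace V] [SimplyConnectedSpace V] (A : Atlas V) (K₀ K : Set V),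
    (interior K₀).Nonempty → IsCompact K → ∃ C > 0, ∃ c > 0, ∀ δ : ℝ, 0 < δ → δ ≤ c →
      ∀ F : V → V, A.HolSelf F → A.Close K₀ δ F → A.Close K (C * δ) F

/-- CHO: elements of the cone are holomorphic. -/
def ChoStmt : Prop :=
  ∀ (V : Type) [TopologicalSpace V] (A : Atlas V) (ξ : V → ℂ × ℂ), A.Cone ξ → A.Hol ξ

/-- CCL: the cone is closed, invariant under deck transformations and under scaling. -/
def CclStmt : Prop :=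
  ∀ (V : Type) [TopologicalSpace V] (A : Atlas V),
    (∀ (ι : Type) (l : Filter ι) (f : ι → V → ℂ × ℂ) (ξ : V → ℂ × ℂ), l.NeBot →
      (∀ i, A.Cone (f i)) → TendstoLocallyUniformly f ξ l → A.Cone ξ) ∧
    (∀ ξ, A.Cone ξ → ∀ r : ℝ, 0 < r → A.Cone (fun p => (r : ℂ) • ξ p)) ∧
    (∀ ξ, A.Cone ξ → ∀ g : V ≃ₜ V, (∀ p, A.E (g p) = A.E p) → A.Cone (fun p => ξ (g p)))

/-- SWP: the cone of the swapped atlas. -/
def SwpStmt : Prop :=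
  ∀ (V : Type) [TopologicalSpace V] (A : Atlas V) (ξ : V → ℂ × ℂ), A.Cone ξ →
    A.swap.Cone (fun p => (ξ p).swap)

/-- BND: Harnack inequality for the elements of the cone. -/
def BndStmt : Prop :=
  ∀ (V : Type) [TopologicalSpace V] [SimplyConnectedSpace V] (A : Atlas V) (K₀ K : Set V),
    (interior K₀).Nonempty → IsCompact K → ∃ C : ℝ, ∀ ξ, A.Cone ξ → ∀ M : ℝ,
      (∀ p ∈ K₀, ‖ξ p‖ ≤ M) → ∀ p ∈ K, ‖ξ p‖ ≤ C * M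

/-- MON: Montel's theorem on `V`, along ultrafilters. -/
def MonStmt : Prop :=
  ∀ (V : Type) [TopologicalSpace V] (A : Atlas V) (l : Ultrafilter ℕ) (f : ℕ → V → ℂ × ℂ),
    (∀ n, A.Hol (f n)) → (∀ K, IsCompact K → ∃ M : ℝ, ∀ n, ∀ p ∈ K, ‖f n p‖ ≤ M) →
    ∃ ξ : V → ℂ × ℂ, A.Hol ξ ∧ TendstoLocallyUniformly f ξ (l : Filter ℕ)

/-- CPT: compactness in the cone. -/
def CptStmt : Prop :=
  ∀ (V : Type) [TopologicalSpace V] [SimplyConnectedSpace V] (A : Atlas V) (K₀ : Set V),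
    (interior K₀).Nonempty → ∀ (l : Ultrafilter ℕ) (f : ℕ → V → ℂ × ℂ) (M : ℝ),
      (∀ n, A.Cone (f n)) → (∀ n, ∀ p ∈ K₀, ‖f n p‖ ≤ M) →
      ∃ ξ : V → ℂ × ℂ, A.Cone ξ ∧ TendstoLocallyUniformly f ξ (l : Filter ℕ)

/-- NZE: nontrivial self-maps converging to the identity produce a nonzero vector field. -/
def NzeStmt : Prop :=
  ∀ (V : Type) [TopologicalSpace V] [SimplyConnectedSpace V] (A : Atlas V) (F : ℕ → V → V),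
    (∀ n, A.HolSelf (F n)) → A.ToId atTop F → (∀ n, ∃ p, F n p ≠ p) →
    ∃ ξ, A.Cone ξ ∧ ∃ p, ξ p ≠ 0

/-- HMT: a holomorphic homotopy from the identity to a constant gives such maps. -/
def HmtStmt : Prop :=
  ∀ (V : Type) [TopologicalSpace V] [SimplyConnectedSpace V] (A : Atlas V)
    (G : V × unitInterval → V) (v₀ : V), Continuous G → (∀ v, G (v, 0) = v) →
    (∀ v, G (v, 1) = v₀) → (∀ t, A.HolSelf (fun v => G (v, t))) →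
    ∃ F : ℕ → V → V, (∀ n, A.HolSelf (F n)) ∧ A.ToId atTop F ∧ ∀ n, ∃ p, F n p ≠ p

/-- DER: differentiation along a sequence of self-maps. -/
def DerStmt : Prop :=
  ∀ (V : Type) [TopologicalSpace V] (A : Atlas V) (F : Type) [NormedAddCommGroup F]
    [NormedSpace ℂ F] (f : V → F) (ι : Type) (l : Filter ι) (G : ι → V) (s : ι → ℝ)
    (v : ℂ × ℂ) (p : V), A.Hol f → (∀ i, 0 < s i) → Tendsto s l (𝓝 0) →
    (∀ᶠ i in l, A.sec p (A.E (G i)) = G i) →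
    Tendsto (fun i => ((s i : ℂ))⁻¹ • (A.E (G i) - A.E p)) l (𝓝 v) →
    Tendsto (fun i => ((s i : ℂ))⁻¹ • (f (G i) - f p)) l
      (𝓝 (fderiv ℂ (fun m => f (A.sec p m)) (A.E p) v))

/-- PSH: push forward under holomorphic homeomorphisms. -/
def PshStmt : Prop :=
  ∀ (V : Type) [TopologicalSpace V] (A : Atlas V) (T : V ≃ₜ V), A.HolSelf T →
    A.HolSelf T.symm →
    (∀ ξ, A.Cone ξ → A.Cone (A.push T ξ)) ∧
    (∀ K, IsCompact K → ∃ C : ℝ, ∀ ξ : V → ℂ × ℂ, ∀ q ∈ K,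
      ‖A.push T ξ q‖ ≤ C * ‖ξ (T.symm q)‖) ∧
    (∀ (f : V → ℂ) (ξ : V → ℂ × ℂ) (p : V), A.Hol f →
      fderiv ℂ (fun m => f (A.sec (T p) m)) (A.E (T p)) (A.push T ξ (T p)) =
        fderiv ℂ (fun m => f (T (A.sec p m))) (A.E p) (ξ p))

/-- BPL: on every leaf the `τ`-component is an infinitesimal generator. -/
def BplStmt : Prop :=
  ∀ (V : Type) [TopologicalSpace V] (A : Atlas V) (W : Ell A) (ξ : V → ℂ × ℂ) (L : ℂ → V)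
    (a b : ℝ) (τ₀ : ℂ), A.Cone ξ → 0 < τ₀.im → ContinuousOn L {τ | 0 < τ.im} →
    (∀ τ : ℂ, 0 < τ.im → W.W (L τ) = (τ, a * τ + b)) →
    BPd (fun z => W.hh ξ (L (cay τ₀ z)) * (1 - z) ^ 2 / (2 * I * τ₀.im))

/-! ## Part 4: one complex variable -/

/-- GRO: growth of infinitesimal generators. -/
def GroStmt : Prop :=
  ∀ (f : ℂ → ℂ) (M : ℝ), BPd f → (∀ z, ‖z‖ ≤ 1 / 2 → ‖f z‖ ≤ M) →
    ∀ z ∈ ball (0 : ℂ) 1, ‖f z‖ ≤ 20 * M / (1 - ‖z‖)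

/-- L2C: bounded holomorphic functions are nearly constant in `L²` at the boundary. -/
def L2cStmt : Prop :=
  ∀ (b₁ b₂ c₁ c₂ M : ℝ) (g : ℝ → ℂ → ℂ), b₁ < c₁ → c₁ < c₂ → c₂ < b₂ →
    ContinuousOn (fun q : ℝ × ℂ => g q.1 q.2) (Ioo b₁ b₂ ×ˢ ball 0 1) →
    (∀ b ∈ Ioo b₁ b₂, DifferentiableOn ℂ (g b) (ball 0 1)) →
    (∀ b ∈ Ioo b₁ b₂, ∀ z ∈ ball (0 : ℂ) 1, ‖g b z‖ ≤ M) →
    ∀ (t : ℝ) (ζ : ℂ), ζ ∈ ball (0 : ℂ) 1 →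
      Tendsto (fun r : ℝ => ∫ b in c₁..c₂, ∫ θ in (0 : ℝ)..(2 * Real.pi),
        ‖g (b + Real.sqrt (1 - r) * t) (exp (θ * I) * ((ζ + r) / (1 + r * ζ))) -
          g b (r * exp (θ * I))‖ ^ 2) (𝓝[<] 1) (𝓝 0)

/-- WKT: weak type estimate for functions with positive real part. -/
def WktStmt : Prop :=
  ∀ (q : ℂ → ℂ), DifferentiableOn ℂ q (ball 0 1) → (∀ z ∈ ball (0 : ℂ) 1, 0 ≤ (q z).re) →
    ∀ (r Λ : ℝ), 0 ≤ r → r < 1 → 0 < Λ →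
      volume {θ ∈ Icc (0 : ℝ) (2 * Real.pi) | Λ < ‖1 + q (r * exp (θ * I))‖} ≤
        ENNReal.ofReal (10 * Real.sqrt (‖1 + q 0‖ / Λ))

/-- LOW: lower bound for the `L²`-norms on circles. -/
def LowStmt : Prop :=
  ∀ (b₁ b₂ : ℝ) (g : ℝ → ℂ → ℂ), b₁ < b₂ →
    ContinuousOn (fun q : ℝ × ℂ => g q.1 q.2) (Ioo b₁ b₂ ×ˢ ball 0 1) →
    (∀ b ∈ Ioo b₁ b₂, DifferentiableOn ℂ (g b) (ball 0 1)) →
    (∃ b ∈ Ioo b₁ b₂, ∃ z ∈ ball (0 : ℂ) 1, g b z ≠ 0) →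
    ∃ c₁ c₂ c : ℝ, b₁ < c₁ ∧ c₁ < c₂ ∧ c₂ < b₂ ∧ 0 < c ∧ ∀ r ∈ Ico (1 / 2 : ℝ) 1,
      c ≤ ∫ b in c₁..c₂, ∫ θ in (0 : ℝ)..(2 * Real.pi), ‖g b (r * exp (θ * I))‖ ^ 2

/-- BCC: choice of the zooming points. -/
def BccStmt : Prop :=
  ∀ (b₁ b₂ : ℝ) (f : ℝ → ℂ → ℂ), b₁ < b₂ →
    ContinuousOn (fun q : ℝ × ℂ => f q.1 q.2) (Ioo b₁ b₂ ×ˢ ball 0 1) →
    (∀ b ∈ Ioo b₁ b₂, BPd (f b)) →
    (∃ b ∈ Ioo b₁ b₂, ∃ z ∈ ball (0 : ℂ) 1, f b z ≠ 0) →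
    ∃ c₁ c₂ η c C : ℝ, b₁ < c₁ ∧ c₁ < c₂ ∧ c₂ < b₂ ∧ 0 < η ∧ 0 < c ∧
      ∀ Bad : ℝ → Set (ℝ × ℝ),
        (∀ r ∈ Ico (1 / 2 : ℝ) 1, MeasurableSet (Bad r) ∧
          volume (Bad r ∩ (Icc c₁ c₂ ×ˢ Icc 0 (2 * Real.pi))) ≤ ENNReal.ofReal η) →
        ∀ D : ℕ → ℝ × ℂ, (∀ j, (D j).2 ∈ ball (0 : ℂ) 1) →
          ∃ r b θ : ℕ → ℝ, Tendsto r atTop (𝓝 1) ∧
            (∀ n, r n ∈ Ico (1 / 2 : ℝ) 1 ∧ b n ∈ Icc c₁ c₂ ∧ θ n ∈ Icc 0 (2 * Real.pi) ∧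
              (b n, θ n) ∉ Bad (r n) ∧ c ≤ ‖f (b n) (r n * exp (θ n * I))‖ ∧
              ‖f (b n) (r n * exp (θ n * I))‖ ≤ C) ∧
            ∀ j, Tendsto (fun n => f (b n + Real.sqrt (1 - r n) * (D j).1)
                (exp (θ n * I) * (((D j).2 + r n) / (1 + r n * (D j).2))) -
              f (b n) (r n * exp (θ n * I))) atTop (𝓝 0)

/-! ## Part 5: the modular group -/

/-- REC: thick points can be moved into a compact set by `Γ(2) ⋉ (2ℤ)²`. -/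
def RecStmt : Prop :=
  ∀ δ > 0, ∃ K : Set (ℂ × ℂ), IsCompact K ∧ K ⊆ YY ∧ ∀ q : ℂ × ℂ, 0 < q.1.im →
    (∀ m n : ℤ, ¬ (m = 0 ∧ n = 0) → δ * q.1.im ≤ ‖(m : ℂ) * q.1 + n‖ ^ 2) →
    (∀ m n : ℤ, δ * q.1.im ≤ ‖q.2 - m * q.1 - n‖ ^ 2) →
    ∃ a b c d m n : ℤ, G2 a b c d ∧ act a b c d m n q ∈ K

/-- the thick part: conditions on `(b, θ)` -/
def Thick (a₀ δ ρ r : ℝ) (x : ℝ × ℝ) : Prop :=
  ρ ≤ ‖1 - (r : ℂ) * exp (x.2 * I)‖ ∧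
  (∀ m n : ℤ, ¬ (m = 0 ∧ n = 0) → δ * (cay I (r * exp (x.2 * I))).im ≤
    ‖(m : ℂ) * cay I (r * exp (x.2 * I)) + n‖ ^ 2) ∧
  (∀ m n : ℤ, δ * (cay I (r * exp (x.2 * I))).im ≤
    ‖(a₀ : ℂ) * cay I (r * exp (x.2 * I)) + x.1 - m * cay I (r * exp (x.2 * I)) - n‖ ^ 2)

/-- MEA: most points are thick. -/
def MeaStmt : Prop :=
  ∀ (a₀ b₁ b₂ η : ℝ), b₁ < b₂ → 0 < η → ∃ δ > 0, ∃ ρ > 0, ∀ r ∈ Ico (1 / 2 : ℝ) 1,
    MeasurableSet {x | ¬ Thick a₀ δ ρ r x} ∧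
    volume ({x | ¬ Thick a₀ δ ρ r x} ∩ (Icc b₁ b₂ ×ˢ Icc 0 (2 * Real.pi))) ≤ ENNReal.ofReal η

/-! ## Part 6: the zoom -/

/-- LEF: a family of leaves through a given point. -/
def LefStmt : Prop :=
  ∀ (V : Type) [TopologicalSpace V] [SimplyConnectedSpace V] (A : Atlas V) (W : Ell A) (p₀ : V),
    ∃ (a₀ b₁ b₂ b₀ : ℝ) (L : ℝ → ℂ → V), b₀ ∈ Ioo b₁ b₂ ∧
      ContinuousOn (fun q : ℝ × ℂ => L q.1 q.2) (Ioo b₁ b₂ ×ˢ {τ : ℂ | 0 < τ.im}) ∧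
      (∀ b ∈ Ioo b₁ b₂, ∀ τ : ℂ, 0 < τ.im → W.W (L b τ) = (τ, a₀ * τ + b)) ∧
      L b₀ (W.W p₀).1 = p₀

/-- ZM1: Möbius identities. -/
def Zm1Stmt : Prop :=
  (∀ r θ : ℝ, 0 ≤ r → r < 1 → ∃ l : ℂ, ‖l‖ = 1 ∧ ∀ ζ ∈ ball (0 : ℂ) 1,
    cay I (exp (θ * I) * ((ζ + r) / (1 + r * ζ))) = cay (cay I (r * exp (θ * I))) (l * ζ)) ∧
  (∀ a b c d : ℤ, a * d - b * c = 1 → ∀ τ : ℂ, 0 < τ.im → ∃ l : ℂ, ‖l‖ = 1 ∧
    ∀ w ∈ ball (0 : ℂ) 1, (a * cay τ w + b) / (c * cay τ w + d) =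
      cay ((a * τ + b) / (c * τ + d)) (l * w)) ∧
  (∀ a b' c d m k : ℤ, a * d - b' * c = 1 → ∀ (τ : ℂ) (a₀ b t : ℝ), 0 < τ.im →
    act a b' c d m k (τ, a₀ * τ + b + t) = ((a * τ + b') / (c * τ + d),
      (a₀ * d - b * c + 2 * m) * ((a * τ + b') / (c * τ + d)) + (b * a - a₀ * b' + 2 * k) +
        t * (a - c * ((a * τ + b') / (c * τ + d))))) ∧
  (∀ a b c d : ℤ, a * d - b * c = 1 → ∀ τ : ℂ, 0 < τ.im →
    (c * τ + d) * (a - c * ((a * τ + b) / (c * τ + d))) = 1 ∧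
    0 < ((a * τ + b) / (c * τ + d)).im ∧
    ((a * τ + b) / (c * τ + d)).im = τ.im / ‖(c * τ + d : ℂ)‖ ^ 2) ∧
  (∀ r θ : ℝ, 0 ≤ r → r < 1 → (cay I (r * exp (θ * I))).im =
    (1 - r ^ 2) / ‖1 - (r : ℂ) * exp (θ * I)‖ ^ 2) ∧
  (∀ (τ z : ℂ), 0 < τ.im → z ∈ ball (0 : ℂ) 1 → 0 < (cay τ z).im) ∧
  (∀ (τ w : ℂ), 0 < τ.im → 0 < w.im → ∃ z ∈ ball (0 : ℂ) 1, cay τ z = w)

/-- ZM2: recentering by deck transformations. -/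
def Zm2Stmt : Prop :=
  ∀ (V : Type) [TopologicalSpace V] [SimplyConnectedSpace V] (A : Atlas V) (W : Ell A)
    (KY : Set (ℂ × ℂ)), IsCompact KY → KY ⊆ YY → ∃ KV : Set V, IsCompact KV ∧
      ∀ (x : V) (a b c d m n : ℤ), G2 a b c d → act a b c d m n (W.W x) ∈ KY →
        ∃ g : V ≃ₜ V, (∀ y, A.E (g y) = A.E y) ∧ (∀ y, W.W (g y) = act a b c d m n (W.W y)) ∧
          g x ∈ KV

/-- LMT: the derivative of `lam` at equivalent points. -/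
def LmtStmt : Prop :=
  ∀ a b c d : ℤ, G2 a b c d → ∀ τ : ℂ, 0 < τ.im →
    lam ((a * τ + b) / (c * τ + d)) = lam τ ∧
    deriv lam ((a * τ + b) / (c * τ + d)) = (c * τ + d) ^ 2 * deriv lam τ

/-- HYP: a holomorphic function vanishing on a piece of a real hypersurface foliated by leaves
vanishes. -/
def HypStmt : Prop :=
  ∀ (V : Type) [TopologicalSpace V] [SimplyConnectedSpace V] (A : Atlas V) (W : Ell A)
    (f : V → ℂ) (α β a b ρ : ℝ) (τ₀ : ℂ) (Q : ℝ → ℂ → V), A.Hol f → (α ≠ 0 ∨ β ≠ 0) → 0 < ρ →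
    ρ ≤ τ₀.im →
    ContinuousOn (fun q : ℝ × ℂ => Q q.1 q.2) (Ioo (-ρ) ρ ×ˢ ball τ₀ ρ) →
    (∀ t ∈ Ioo (-ρ) ρ, ∀ τ ∈ ball τ₀ ρ,
      W.W (Q t τ) = (τ, a * τ + b + t * (α - β * τ)) ∧ f (Q t τ) = 0) →
    ∀ p, f p = 0

/-- the function to which BCC is applied -/
noncomputable def discF {V : Type} [TopologicalSpace V] {A : Atlas V} (W : Ell A)
    (ξ : V → ℂ × ℂ) (L : ℝ → ℂ → V) (b : ℝ) (z : ℂ) : ℂ :=
  W.hh ξ (L b (cay I z)) * (1 - z) ^ 2 / (2 * I)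

/-- ZOM: the limit of the zoom. -/
def ZomStmt : Prop :=
  ∀ (V : Type) [TopologicalSpace V] [SimplyConnectedSpace V] (A : Atlas V) (W : Ell A)
    (C : (V → ℂ × ℂ) → Prop) (ξ : V → ℂ × ℂ) (a₀ b₁ b₂ c₁ c₂ ρ c C' : ℝ) (L : ℝ → ℂ → V)
    (KY : Set (ℂ × ℂ)) (D : ℕ → ℝ × ℂ) (r b θ : ℕ → ℝ),
    GoodC A C → C ξ → (∃ p, ξ p ≠ 0) → b₁ < c₁ → c₁ < c₂ → c₂ < b₂ → 0 < ρ → 0 < c →
    ContinuousOn (fun q : ℝ × ℂ => L q.1 q.2) (Ioo b₁ b₂ ×ˢ {τ : ℂ | 0 < τ.im}) →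
    (∀ b ∈ Ioo b₁ b₂, ∀ τ : ℂ, 0 < τ.im → W.W (L b τ) = (τ, a₀ * τ + b)) →
    IsCompact KY → KY ⊆ YY →
    (∀ j, (D j).2 ∈ ball (0 : ℂ) 1) →
    (∀ q : ℝ × ℂ, q.2 ∈ ball (0 : ℂ) 1 → q ∈ closure (range D)) →
    Tendsto r atTop (𝓝 1) →
    (∀ n, r n ∈ Ico (1 / 2 : ℝ) 1 ∧ b n ∈ Icc c₁ c₂) →
    (∀ n, ρ ≤ ‖1 - (r n : ℂ) * exp (θ n * I)‖) →
    (∀ n, ∃ a b' c d m k : ℤ, G2 a b' c d ∧
      act a b' c d m k (cay I (r n * exp (θ n * I)), a₀ * cay I (r n * exp (θ n * I)) + b n)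
        ∈ KY) →
    (∀ n, c ≤ ‖discF W ξ L (b n) (r n * exp (θ n * I))‖ ∧
      ‖discF W ξ L (b n) (r n * exp (θ n * I))‖ ≤ C') →
    (∀ j, Tendsto (fun n => discF W ξ L (b n + Real.sqrt (1 - r n) * (D j).1)
        (exp (θ n * I) * (((D j).2 + r n) / (1 + r n * (D j).2))) -
      discF W ξ L (b n) (r n * exp (θ n * I))) atTop (𝓝 0)) →
    ∃ ξ', C ξ' ∧ ∃ (κ : ℂ) (α β : ℝ), κ ≠ 0 ∧ (α ≠ 0 ∨ β ≠ 0) ∧
      ∀ p, W.hh ξ' p = κ * (α - β * (W.W p).1) ^ 2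

/-- BZZ: every nonzero element of a good cone produces a parabolic one. -/
def BzzStmt : Prop :=
  ∀ (V : Type) [TopologicalSpace V] [SimplyConnectedSpace V] (A : Atlas V) (W : Ell A)
    (C : (V → ℂ × ℂ) → Prop) (ξ : V → ℂ × ℂ), GoodC A C → C ξ → (∃ p, ξ p ≠ 0) →
    ∃ ξ', C ξ' ∧ ∃ (κ : ℂ) (α β : ℝ), κ ≠ 0 ∧ (α ≠ 0 ∨ β ≠ 0) ∧
      ∀ p, W.hh ξ' p = κ * (α - β * (W.W p).1) ^ 2

/-! ## Part 7: the maximum principle on a fibre -/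

/-- CE1: the fields of a good cone with prescribed `τ`-component are locally bounded. -/
def Ce1Stmt : Prop :=
  ∀ (V : Type) [TopologicalSpace V] [SimplyConnectedSpace V] (A : Atlas V) (W : Ell A)
    (C : (V → ℂ × ℂ) → Prop) (h : V → ℂ), GoodC A C → Continuous h → ∀ K, IsCompact K →
    ∃ M : ℝ, ∀ ξ, C ξ → (∀ p, W.hh ξ p = h p) → ∀ p ∈ K, ‖ξ p‖ ≤ M

/-- THT: automorphisms of `V` covering the translations of `YY`. -/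
def ThtStmt : Prop :=
  ∀ (V : Type) [TopologicalSpace V] [SimplyConnectedSpace V] (A : Atlas V) (W : Ell A)
    (m n : ℤ), ∃ T : V ≃ₜ V, A.HolSelf T ∧ A.HolSelf T.symm ∧
      ∀ p, W.W (T p) = ((W.W p).1, (W.W p).2 + m * (W.W p).1 + n)

/-- Z1: the second structure near the puncture. -/
def Z1Stmt : Prop :=
  ∀ τ₀ : ℂ, 0 < τ₀.im → ((lam τ₀).im ≠ 0 ∨ (0 < (lam τ₀).re ∧ (lam τ₀).re < 1)) →
    ∃ (T U : ℂ → ℂ) (ρ C b : ℝ), (∀ n : ℤ, b ≠ n) ∧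
      ContinuousOn T {z | z.re < ρ} ∧ ContinuousOn U {z | z.re < ρ} ∧
      (∀ z : ℂ, z.re < ρ → (τ₀, exp z) ∈ YY ∧ (T z, U z) ∈ YY ∧
        Phi (T z, U z) = (Phi (τ₀, exp z)).swap) ∧
      (∀ z : ℂ, z.re < ρ → 0 ≤ z.im → z.im ≤ 2 * Real.pi →
        1 ≤ (T z).im ∧ |(T z).re| ≤ C ∧ (T z).im ≤ C * (1 + |z.re|)) ∧
      (∀ R : ℝ, ∃ ρ' : ℝ, ∀ z : ℂ, z.re < ρ' → z.re < ρ → 0 ≤ z.im → z.im ≤ 2 * Real.pi →
        R ≤ (T z).im) ∧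
      (∀ ε > 0, ∃ ρ' : ℝ, ∀ z : ℂ, z.re < ρ' → z.re < ρ → 0 ≤ z.im → z.im ≤ 2 * Real.pi →
        |(U z).im / (T z).im - 1| < ε ∧
        |(U z).re - (U z).im / (T z).im * (T z).re - b| < ε)

/-- Z2: growth of the second `τ`-component along the puncture. -/
def Z2Stmt : Prop :=
  ∀ (V : Type) [TopologicalSpace V] [SimplyConnectedSpace V] (A : Atlas V) (W : Ell A)
    (J : ℂ → V) (ρ C b : ℝ) (S : Set (V → ℂ × ℂ)), ContinuousOn J {z | z.re < ρ} →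
    (∀ n : ℤ, b ≠ n) →
    (∀ z : ℂ, z.re < ρ → 0 ≤ z.im → z.im ≤ 2 * Real.pi →
      1 ≤ (W.W (J z)).1.im ∧ |(W.W (J z)).1.re| ≤ C) →
    (∀ ε > 0, ∃ ρ' : ℝ, ∀ z : ℂ, z.re < ρ' → z.re < ρ → 0 ≤ z.im → z.im ≤ 2 * Real.pi →
      |(W.W (J z)).2.im / (W.W (J z)).1.im - 1| < ε ∧
      |(W.W (J z)).2.re - (W.W (J z)).2.im / (W.W (J z)).1.im * (W.W (J z)).1.re - b| < ε) →
    (∀ ξ ∈ S, A.Cone ξ) → (∀ K, IsCompact K → ∃ M : ℝ, ∀ ξ ∈ S, ∀ p ∈ K, ‖ξ p‖ ≤ M) →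
    ∃ C' ρ' : ℝ, ∀ ξ ∈ S, ∀ z : ℂ, z.re < ρ' → z.re < ρ → 0 ≤ z.im → z.im ≤ 2 * Real.pi →
      ‖W.hh ξ (J z)‖ ≤ C' * (W.W (J z)).1.im ^ 3

/-- ZZZ: the `u`-component tends to zero at the puncture `u = 0`. -/
def ZzzStmt : Prop :=
  ∀ (V : Type) [TopologicalSpace V] [SimplyConnectedSpace V] (A : Atlas V) (W : Ell A)
    (τ₀ : ℂ) (J : ℂ → V) (ρ M : ℝ) (S : Set (V → ℂ × ℂ)), 0 < τ₀.im →
    ((lam τ₀).im ≠ 0 ∨ (0 < (lam τ₀).re ∧ (lam τ₀).re < 1)) →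
    ContinuousOn J {z | z.re < ρ} → (∀ z : ℂ, z.re < ρ → W.W (J z) = (τ₀, exp z)) →
    (∀ ξ ∈ S, A.Cone ξ) → (∀ K, IsCompact K → ∃ M : ℝ, ∀ ξ ∈ S, ∀ p ∈ K, ‖ξ p‖ ≤ M) →
    (∀ ξ ∈ S, ∀ z : ℂ, z.re < ρ → ‖W.hh ξ (J z)‖ ≤ M) →
    ∀ ε > 0, ∃ ρ' : ℝ, ∀ ξ ∈ S, ∀ z : ℂ, z.re < ρ' → z.re < ρ → 0 ≤ z.im →
      z.im ≤ 2 * Real.pi → ‖W.kk ξ (J z)‖ ≤ ε

/-- ZPR: the transversal component tends to zero at every puncture. -/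
def ZprStmt : Prop :=
  ∀ (V : Type) [TopologicalSpace V] [SimplyConnectedSpace V] (A : Atlas V) (W : Ell A)
    (τ₀ : ℂ) (m n : ℤ) (J : ℂ → V) (ρ M : ℝ) (S : Set (V → ℂ × ℂ)), 0 < τ₀.im →
    ((lam τ₀).im ≠ 0 ∨ (0 < (lam τ₀).re ∧ (lam τ₀).re < 1)) →
    ContinuousOn J {z | z.re < ρ} →
    (∀ z : ℂ, z.re < ρ → W.W (J z) = (τ₀, m * τ₀ + n + exp z)) →
    (∀ ξ ∈ S, A.Cone ξ) → (∀ K, IsCompact K → ∃ M : ℝ, ∀ ξ ∈ S, ∀ p ∈ K, ‖ξ p‖ ≤ M) →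
    (∀ ξ ∈ S, ∀ z : ℂ, z.re < ρ → ‖W.hh ξ (J z)‖ ≤ M) →
    ∀ ε > 0, ∃ ρ' : ℝ, ∀ ξ ∈ S, ∀ z : ℂ, z.re < ρ' → z.re < ρ → 0 ≤ z.im →
      z.im ≤ 2 * Real.pi →
      ‖W.kk ξ (J z) - ((W.W (J z)).2.im / τ₀.im : ℝ) * W.hh ξ (J z)‖ ≤ ε

/-- EQV: equivariance of the transversal component. -/
def EqvStmt : Prop :=
  ∀ (V : Type) [TopologicalSpace V] [SimplyConnectedSpace V] (A : Atlas V) (W : Ell A)
    (g : V ≃ₜ V) (m n : ℤ), (∀ p, A.E (g p) = A.E p) →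
    (∀ p, W.W (g p) = ((W.W p).1, (W.W p).2 + 2 * m * (W.W p).1 + 2 * n)) →
    ∀ (ξ : V → ℂ × ℂ) (p : V), W.hh (fun q => ξ (g.symm q)) (g p) = W.hh ξ p ∧
      W.kk (fun q => ξ (g.symm q)) (g p) = W.kk ξ p + 2 * m * W.hh ξ p

/-- FIB: a fundamental domain for the fibre over `τ₀`, up to neighbourhoods of the punctures. -/
def FibStmt : Prop :=
  ∀ (V : Type) [TopologicalSpace V] [SimplyConnectedSpace V] (A : Atlas V) (W : Ell A)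
    (τ₀ : ℂ) (ε : ℝ), 0 < τ₀.im → 0 < ε → ∃ K : Set V, IsCompact K ∧ ∀ p, (W.W p).1 = τ₀ →
      ∃ (g : V ≃ₜ V) (m n : ℤ), (∀ x, A.E (g x) = A.E x) ∧
        (∀ x, W.W (g x) = ((W.W x).1, (W.W x).2 + 2 * m * (W.W x).1 + 2 * n)) ∧
        (g p ∈ K ∨ ∃ m' n' : ℤ, |m'| ≤ 1 ∧ |n'| ≤ 1 ∧
          ‖(W.W (g p)).2 - m' * τ₀ - n'‖ < ε)

/-- FIJ: the universal covering of a punctured neighbourhood of a puncture of the fibre, and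
transitivity of the deck group. -/
def FijStmt : Prop :=
  ∀ (V : Type) [TopologicalSpace V] [SimplyConnectedSpace V] (A : Atlas V) (W : Ell A)
    (τ₀ : ℂ) (m n : ℤ), 0 < τ₀.im → ∃ (ρ : ℝ) (J : ℂ → V), ContinuousOn J {z | z.re < ρ} ∧
      (∀ z : ℂ, z.re < ρ → W.W (J z) = (τ₀, m * τ₀ + n + exp z)) ∧
      (∀ p : V, ∀ z : ℂ, z.re < ρ → W.W p = (τ₀, m * τ₀ + n + exp z) →
        ∃ g : V ≃ₜ V, (∀ x, A.E (g x) = A.E x) ∧ (∀ x, W.W (g x) = W.W x) ∧ g p = J z)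

/-- transversal component of `ξ` in the direction `ω` -/
noncomputable def Ell.tr {V : Type} [TopologicalSpace V] {A : Atlas V} (W : Ell A) (ω : ℂ)
    (ξ : V → ℂ × ℂ) (p : V) : ℝ :=
  (ω * (W.kk ξ p - ((W.W p).2.im / (W.W p).1.im : ℝ) * W.hh ξ p)).re

/-- MXP: maximum principle on the fibre over `τ₀`. -/
def MxpStmt : Prop :=
  ∀ (V : Type) [TopologicalSpace V] [SimplyConnectedSpace V] (A : Atlas V) (W : Ell A)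
    (τ₀ ω h₀ : ℂ) (ξ : V → ℂ × ℂ) (S : ℝ) (p : V), A.Hol ξ → 0 < τ₀.im → (W.W p).1 = τ₀ →
    (∀ x, (W.W x).1 = τ₀ → W.hh ξ x = h₀) → (∀ x, (W.W x).1 = τ₀ → W.tr ω ξ x ≤ S) →
    W.tr ω ξ p = S → ∀ u : ℂ, ¬ Lat τ₀ u → ∃ x, W.W x = (τ₀, u) ∧ W.tr ω ξ x = S

/-- CCC: there are no parabolic elements. -/
def CccStmt : Prop :=
  ∀ (V : Type) [TopologicalSpace V] [SimplyConnectedSpace V] (A : Atlas V) (W : Ell A)
    (C : (V → ℂ × ℂ) → Prop) (ξ : V → ℂ × ℂ) (κ : ℂ) (α β : ℝ), GoodC A C → C ξ →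
    (α ≠ 0 ∨ β ≠ 0) → (∀ p, W.hh ξ p = κ * (α - β * (W.W p).1) ^ 2) → κ = 0

/-- PRO: good cones are trivial. -/
def ProStmt : Prop :=
  ∀ (V : Type) [TopologicalSpace V] [SimplyConnectedSpace V] (A : Atlas V)
    (C : (V → ℂ × ℂ) → Prop), GoodC A C → ∀ ξ, C ξ → ∀ p, ξ p = 0

/-- ZER: the cone is trivial. -/
def ZerStmt : Prop :=
  ∀ (V : Type) [TopologicalSpace V] [SimplyConnectedSpace V] (A : Atlas V) (ξ : V → ℂ × ℂ),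
    A.Cone ξ → ∀ p, ξ p = 0

end Pool.Agent.H63.TC
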