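import Pool.Agent.H63.TC.Basic

/-!
# Project TC: basic facts on the lattice and on `YY`
-/

open Complex Metric Set Filter Topology

namespace Pool.Agent.H63.TC

/-! ## real coordinates `u = ca τ + cb` -/

/-- first real coordinate of `u` with respect to `(τ, 1)` -/
noncomputable def ca (q : ℂ × ℂ) : ℝ := q.2.im / q.1.im

/-- second real coordinate of `u` with respect to `(τ, 1)` -/
noncomputable def cb (q : ℂ × ℂ) : ℝ := q.2.re - q.2.im / q.1.im * q.1.re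

lemma ca_cb {q : ℂ × ℂ} (h : 0 < q.1.im) : (ca q : ℂ) * q.1 + cb q = q.2 := by
  have h' : q.1.im ≠ 0 := h.ne'
  apply Complex.ext
  · simp [ca, cb]
  · simp [ca, cb, h']

lemma ca_leaf {τ : ℂ} (h : 0 < τ.im) (a b : ℝ) : ca (τ, a * τ + b) = a := by
  have h' : τ.im ≠ 0 := h.ne'
  simp [ca, h']

lemma cb_leaf {τ : ℂ} (h : 0 < τ.im) (a b : ℝ) : cb (τ, a * τ + b) = b := by
  have h' : τ.im ≠ 0 := h.ne'
  simp [cb, h']

lemma leaf_inj {τ : ℂ} (h : 0 < τ.im) {a b a' b' : ℝ}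
    (h2 : (a : ℂ) * τ + b = a' * τ + b') : a = a' ∧ b = b' := by
  refine ⟨?_, ?_⟩
  · rw [← ca_leaf h a b, h2, ca_leaf h]
  · rw [← cb_leaf h a b, h2, cb_leaf h]

lemma lat_iff {τ u : ℂ} (h : 0 < τ.im) :
    Lat τ u ↔ (∃ m : ℤ, ca (τ, u) = m) ∧ ∃ n : ℤ, cb (τ, u) = n := by
  constructor
  · rintro ⟨m, n, rfl⟩
    have h1 : ((m : ℂ) * τ + n) = ((m : ℝ) : ℂ) * τ + ((n : ℝ) : ℂ) := by push_cast; ring
    rw [h1, ca_leaf h, cb_leaf h]
    exact ⟨⟨m, rfl⟩, ⟨n, rfl⟩⟩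
  · rintro ⟨⟨m, hm⟩, ⟨n, hn⟩⟩
    refine ⟨m, n, ?_⟩
    have e : (ca (τ, u) : ℂ) * τ + cb (τ, u) = u := ca_cb (q := (τ, u)) h
    rw [hm, hn] at e
    rw [← e]; push_cast; ring

lemma lat_leaf {τ : ℂ} (h : 0 < τ.im) (a b : ℝ) :
    Lat τ (a * τ + b) ↔ (∃ m : ℤ, a = m) ∧ ∃ n : ℤ, b = n := by
  rw [lat_iff h, ca_leaf h, cb_leaf h]

lemma leaf_mem_YY {τ : ℂ} (h : 0 < τ.im) {a b : ℝ}
    (hab : ¬ ((∃ m : ℤ, a = m) ∧ ∃ n : ℤ, b = n)) : (τ, (a : ℂ) * τ + b) ∈ YY :=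
  ⟨h, fun h' => hab ((lat_leaf h a b).1 h')⟩

lemma continuousOn_ca : ContinuousOn ca {q : ℂ × ℂ | 0 < q.1.im} := by
  unfold ca
  refine ContinuousOn.div ?_ ?_ (fun q hq => (ne_of_gt hq))
  · exact (Complex.continuous_im.comp continuous_snd).continuousOn
  · exact (Complex.continuous_im.comp continuous_fst).continuousOn

lemma continuousOn_cb : ContinuousOn cb {q : ℂ × ℂ | 0 < q.1.im} := by
  unfold cb
  refine ContinuousOn.sub ?_ (ContinuousOn.mul ?_ ?_)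
  · exact (Complex.continuous_re.comp continuous_snd).continuousOn
  · exact continuousOn_ca
  · exact (Complex.continuous_re.comp continuous_fst).continuousOn

lemma isOpen_upper : IsOpen {q : ℂ × ℂ | 0 < q.1.im} :=
  isOpen_lt continuous_const (Complex.continuous_im.comp continuous_fst)

lemma isClosed_int : IsClosed {x : ℝ | ∃ m : ℤ, x = m} := by
  have : {x : ℝ | ∃ m : ℤ, x = m} = Set.range ((↑) : ℤ → ℝ) := by
    ext x; constructor
    · rintro ⟨m, rfl⟩; exact ⟨m, rfl⟩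
    · rintro ⟨m, rfl⟩; exact ⟨m, rfl⟩
  rw [this]
  exact Int.isClosedEmbedding_coe_real.isClosed_range

lemma isOpen_YY : IsOpen YY := by
  have h1 : IsOpen ({q : ℂ × ℂ | 0 < q.1.im} ∩ ca ⁻¹' {x : ℝ | ∃ m : ℤ, x = m}ᶜ) :=
    continuousOn_ca.isOpen_inter_preimage isOpen_upper isClosed_int.isOpen_compl
  have h2 : IsOpen ({q : ℂ × ℂ | 0 < q.1.im} ∩ cb ⁻¹' {x : ℝ | ∃ m : ℤ, x = m}ᶜ) :=
    continuousOn_cb.isOpen_inter_preimage isOpen_upper isClosed_int.isOpen_compl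
  convert h1.union h2 using 1
  ext q
  simp only [YY, Set.mem_ofPred_eq, mem_union, mem_inter_iff, mem_preimage, mem_compl_iff]
  constructor
  · rintro ⟨hq, hl⟩
    have : ¬ Lat q.1 q.2 := hl
    rw [lat_iff hq] at this
    by_cases h : ∃ m : ℤ, ca (q.1, q.2) = m
    · right
      refine ⟨hq, fun h' => this ⟨h, h'⟩⟩
    · left
      exact ⟨hq, h⟩
  · rintro (⟨hq, h⟩ | ⟨hq, h⟩)
    · refine ⟨hq, fun h' => ?_⟩
      rw [lat_iff hq] at h'
      exact h h'.1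
    · refine ⟨hq, fun h' => ?_⟩
      rw [lat_iff hq] at h'
      exact h h'.2

/-! ## the lattice -/

lemma Lat.add {τ z w : ℂ} (h : Lat τ z) (h' : Lat τ w) : Lat τ (z + w) := by
  obtain ⟨m, n, rfl⟩ := h
  obtain ⟨m', n', rfl⟩ := h'
  exact ⟨m + m', n + n', by push_cast; ring⟩

lemma Lat.neg {τ z : ℂ} (h : Lat τ z) : Lat τ (-z) := by
  obtain ⟨m, n, rfl⟩ := h
  exact ⟨-m, -n, by push_cast; ring⟩

lemma Lat.sub {τ z w : ℂ} (h : Lat τ z) (h' : Lat τ w) : Lat τ (z - w) := by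
  rw [sub_eq_add_neg]; exact h.add h'.neg

lemma lat_zero (τ : ℂ) : Lat τ 0 := ⟨0, 0, by simp⟩
lemma lat_one (τ : ℂ) : Lat τ 1 := ⟨0, 1, by simp⟩
lemma lat_self (τ : ℂ) : Lat τ τ := ⟨1, 0, by simp⟩
lemma lat_int (τ : ℂ) (m n : ℤ) : Lat τ (m * τ + n) := ⟨m, n, rfl⟩

lemma Lat.zmul {τ z : ℂ} (h : Lat τ z) (k : ℤ) : Lat τ (k * z) := by
  obtain ⟨m, n, rfl⟩ := h
  exact ⟨k * m, k * n, by push_cast; ring⟩

lemma lat_add_iff {τ z w : ℂ} (h' : Lat τ w) : Lat τ (z + w) ↔ Lat τ z := by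
  constructor
  · intro h; have := h.sub h'; simpa using this
  · intro h; exact h.add h'

lemma half_not_int : ¬ ∃ m : ℤ, (1 / 2 : ℝ) = m := by
  rintro ⟨m, hm⟩
  have h2 : (1 : ℝ) = ((2 * m : ℤ) : ℝ) := by push_cast; linarith
  have h3 : (1 : ℤ) = 2 * m := by exact_mod_cast h2
  omega

lemma not_lat_half1 {τ : ℂ} (h : 0 < τ.im) : ¬ Lat τ (τ / 2) := by
  have e : τ / 2 = ((1 / 2 : ℝ) : ℂ) * τ + ((0 : ℝ) : ℂ) := by push_cast; ring
  rw [e, lat_leaf h]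
  exact fun h => half_not_int h.1

lemma not_lat_half2 {τ : ℂ} (h : 0 < τ.im) : ¬ Lat τ ((1 + τ) / 2) := by
  have e : (1 + τ) / 2 = ((1 / 2 : ℝ) : ℂ) * τ + ((1 / 2 : ℝ) : ℂ) := by push_cast; ring
  rw [e, lat_leaf h]
  exact fun h => half_not_int h.1

lemma not_lat_half3 {τ : ℂ} (h : 0 < τ.im) : ¬ Lat τ (1 / 2) := by
  have e : (1 / 2 : ℂ) = ((0 : ℝ) : ℂ) * τ + ((1 / 2 : ℝ) : ℂ) := by push_cast; ring
  rw [e, lat_leaf h]
  exact fun h => half_not_int h.2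

/-- `u ∉ Lat` implies `u/2 ∉ Lat` -/
lemma not_lat_div_two {τ u : ℂ} (h : ¬ Lat τ u) : ¬ Lat τ (u / 2) := by
  intro h'
  apply h
  have := h'.add h'
  simpa using this

lemma two_mul_half_not {τ u : ℂ} (h : ¬ Lat τ u) : ¬ Lat τ (2 * (u / 2)) := by
  have : 2 * (u / 2) = u := by ring
  rwa [this]

/-- the real coordinates of a translate -/
lemma ca_add_lat {τ u : ℂ} (h : 0 < τ.im) (m n : ℤ) :
    ca (τ, u + m * τ + n) = ca (τ, u) + m := by
  have h' : τ.im ≠ 0 := h.ne'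
  simp only [ca, add_im, mul_im, intCast_re, intCast_im, zero_mul, add_zero]
  field_simp

lemma cb_add_lat {τ u : ℂ} (h : 0 < τ.im) (m n : ℤ) :
    cb (τ, u + m * τ + n) = cb (τ, u) + n := by
  have h' : τ.im ≠ 0 := h.ne'
  simp only [cb, add_im, mul_im, intCast_re, intCast_im, zero_mul, add_zero, add_re, mul_re,
    sub_zero]
  field_simp
  ring

/-- denominators of the modular action do not vanish -/
lemma denom_ne_zero {a b c d : ℤ} (h : a * d - b * c = 1) {τ : ℂ} (hτ : 0 < τ.im) :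
    (c * τ + d : ℂ) ≠ 0 := by
  intro h0
  have him := congrArg Complex.im h0
  simp at him
  rcases him with hc | hτ0
  · subst hc
    simp at h0
    subst h0
    simp at h
  · exact hτ.ne' hτ0

lemma act_im {a b c d : ℤ} (h : a * d - b * c = 1) {τ : ℂ} (hτ : 0 < τ.im) :
    ((a * τ + b) / (c * τ + d)).im = τ.im / ‖(c * τ + d : ℂ)‖ ^ 2 := by
  have hd := denom_ne_zero h hτ
  rw [Complex.div_im, ← Complex.normSq_eq_norm_sq]
  rw [← sub_div]
  congr 1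
  simp only [add_im, mul_im, intCast_re, intCast_im, zero_mul, add_zero, add_re, mul_re, sub_zero]
  have h' : (a : ℝ) * d - b * c = 1 := by exact_mod_cast h
  linear_combination τ.im * h'

lemma act_im_pos {a b c d : ℤ} (h : a * d - b * c = 1) {τ : ℂ} (hτ : 0 < τ.im) :
    0 < ((a * τ + b) / (c * τ + d)).im := by
  rw [act_im h hτ]
  have hd := denom_ne_zero h hτ
  positivity

/-- `(c τ + d)⁻¹ = a - c τ'` -/
lemma act_denom {a b c d : ℤ} (h : a * d - b * c = 1) {τ : ℂ} (hτ : 0 < τ.im) :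
    (c * τ + d) * (a - c * ((a * τ + b) / (c * τ + d))) = 1 := by
  have hd := denom_ne_zero h hτ
  field_simp
  have h' : (a : ℂ) * d - b * c = 1 := by exact_mod_cast h
  linear_combination h'

/-- the lattice of the transformed point -/
lemma lat_act {a b c d : ℤ} (h : a * d - b * c = 1) {τ : ℂ} (hτ : 0 < τ.im) (z : ℂ) :
    Lat ((a * τ + b) / (c * τ + d)) (z / (c * τ + d)) ↔ Lat τ z := by
  have hd := denom_ne_zero h hτ
  have h' : (a : ℂ) * d - b * c = 1 := by exact_mod_cast h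
  constructor
  · rintro ⟨m, n, e⟩
    refine ⟨m * a + n * c, m * b + n * d, ?_⟩
    field_simp at e
    rw [e]; push_cast; ring
  · rintro ⟨m, n, rfl⟩
    refine ⟨m * d - n * c, -(m * b) + n * a, ?_⟩
    have e : ((a * τ + b) / (c * τ + d)) * (c * τ + d) = a * τ + b := div_mul_cancel₀ _ hd
    rw [div_eq_iff hd]
    push_cast
    linear_combination (-(m * τ + n)) * h' - (m * d - n * c) * e

end Pool.Agent.H63.TC
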